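import Pool.Agent.TH377.LocG.Main

/-!
# The local theorem, with an arbitrary description of the residue field
-/

set_option autoImplicit false

namespace Pool.Agent.TH377.LocG

open Pool.Agent.W620.SC Pool.Agent.W623.SecC Pool.Agent.TH120.Sec Polynomial IntermediateField
open Pool.Agent.TH377.Loc

universe u v w x

/-- a surjection to a field is the residue map -/
lemma exists_residue_lift {A : Type u} {κ : Type x} [CommRing A] [IsLocalRing A] [Field κ]
    (ρ : A →+* κ) (hρ : Function.Surjective ρ) :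
    ∃ l : IsLocalRing.ResidueField A ≃+* κ, ∀ a, l (IsLocalRing.residue A a) = ρ a := by
  have hker : RingHom.ker ρ = IsLocalRing.maximalIdeal A := by
    have hmax : (RingHom.ker ρ).IsMaximal := RingHom.ker_isMaximal_of_surjective ρ hρ
    exact IsLocalRing.eq_maximalIdeal hmax
  have hloc : IsLocalHom ρ := by
    refine ⟨fun a ha => ?_⟩
    by_contra h
    have h1 : a ∈ IsLocalRing.maximalIdeal A := h
    rw [← hker, RingHom.mem_ker] at h1
    rw [h1] at ha
    exact not_isUnit_zero ha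
  refine ⟨RingEquiv.ofBijective (IsLocalRing.ResidueField.lift ρ) ⟨RingHom.injective _, ?_⟩,
    fun a => IsLocalRing.ResidueField.lift_residue_apply ρ a⟩
  intro c
  obtain ⟨a, rfl⟩ := hρ c
  exact ⟨IsLocalRing.residue A a, IsLocalRing.ResidueField.lift_residue_apply ρ a⟩

lemma map_residue_map {A : Type u} {κ : Type x} [CommRing A] [IsLocalRing A] [Field κ]
    (ρ : A →+* κ) (l : IsLocalRing.ResidueField A ≃+* κ)
    (hl : ∀ a, l (IsLocalRing.residue A a) = ρ a) (P : A[X]) :
    (P.map (IsLocalRing.residue A)).map (l : IsLocalRing.ResidueField A →+* κ) = P.map ρ := by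
  rw [Polynomial.map_map]
  congr 1
  exact RingHom.ext hl

lemma separable_residue {A : Type u} {κ : Type x} [CommRing A] [IsLocalRing A] [Field κ]
    (ρ : A →+* κ) (hρ : Function.Surjective ρ) (P : A[X]) (h : (P.map ρ).Separable) :
    (P.map (IsLocalRing.residue A)).Separable := by
  obtain ⟨l, hl⟩ := exists_residue_lift ρ hρ
  rw [← map_residue_map ρ l hl P] at h
  exact (separable_map (l : IsLocalRing.ResidueField A →+* κ)).1 h

lemma factorDiv_residue {A : Type u} {κ : Type x} [CommRing A] [IsLocalRing A] [Field κ]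
    (ρ : A →+* κ) (hρ : Function.Surjective ρ) (N : ℕ) (P : A[X]) (h : FactorDiv N (P.map ρ)) :
    FactorDiv N (P.map (IsLocalRing.residue A)) := by
  obtain ⟨l, hl⟩ := exists_residue_lift ρ hρ
  intro g hg hgP
  have h1 : Irreducible (g.map (l : IsLocalRing.ResidueField A →+* κ)) := by
    have h2 := (MulEquiv.irreducible_iff (Polynomial.mapEquiv l)).2 hg
    exact h2
  have h2 : g.map (l : IsLocalRing.ResidueField A →+* κ) ∣ P.map ρ := by
    rw [← map_residue_map ρ l hl P]
    exact Polynomial.map_dvd _ hgP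
  have h3 := h _ h1 h2
  rwa [natDegree_map] at h3

lemma FactorDiv.natDegree {κ : Type x} [Field κ] {N : ℕ} {P : κ[X]} (h : FactorDiv N P)
    (hP : P ≠ 0) : N ∣ P.natDegree := by
  induction P using WfDvdMonoid.induction_on_irreducible with
  | zero => exact absurd rfl hP
  | unit u hu =>
    rw [natDegree_eq_zero_of_isUnit hu]
    exact dvd_zero N
  | mul a i ha hi ih =>
    rw [natDegree_mul hi.ne_zero ha]
    exact dvd_add (h i hi (dvd_mul_right _ _))
      (ih (fun g hg hga => h g hg (hga.mul_left _)) ha)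

section

variable {A k : Type u} [CommRing A] [IsDomain A]
    [IsDiscreteValuationRing A] [Field k] [Algebra A k]
    [IsFractionRing A k] [CharZero k] {κ : Type x} [Field κ] (ρ : A →+* κ)
    (hρ : Function.Surjective ρ)
    (d : ℕ) (hd : 0 < d)
    {I : Type} [Fintype I] (f : I → A[X]) (e : I → ℕ)
    (hlc : ∀ i, IsUnit (f i).leadingCoeff)
    (hs : ((∏ i, f i).map ρ).Separable)
    (hσ : FactorDiv (Nat.gcd 2 d * d) ((∏ i, f i).map ρ))
    (ϖ : A) (hϖ : Irreducible ϖ) (a : k) (t : A) (ht : IsUnit t) (m : ℤ) (hm : ¬ (d : ℤ) ∣ m)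
    (ha : a = algebraMap A k t * algebraMap A k ϖ ^ m)
    (n : ℕ) (hdn : d ∣ n)

include hρ hd hlc hs hσ hϖ ht hm ha hdn

theorem res_U {F : Type v} {Ω : Type w} [Field F] [Field Ω] [Algebra k F] [Algebra F Ω]
    [Algebra k Ω] [IsScalarTower k F Ω] [IsAlgClosed Ω] [Algebra.IsAlgebraic F Ω]
    (he : ∀ i, Nat.Coprime d (e i))
    (U : Set (ValuationSubring F)) (hU : ∀ O ∈ U, ∀ c : k, algebraMap k F c ∈ O)
    (x y : F) (hxy : algebraMap k F a * y ^ n =
      aeval x ((∏ i, f i ^ e i).map (algebraMap A k))) :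
    IsEmpty (GSection k F Ω U) := by
  obtain ⟨n', rfl⟩ := hdn
  refine local_U d hd f e hlc (separable_residue ρ hρ _ hs) (factorDiv_residue ρ hρ _ _ hσ) ϖ hϖ
    a t ht m hm ha he U hU x (y ^ n') ?_
  rw [← pow_mul, mul_comm n' d]
  exact hxy

theorem res_M {F : Type v} {Ω : Type w} [Field F] [Field Ω] [Algebra k F] [Algebra F Ω]
    [Algebra k Ω] [IsScalarTower k F Ω] [IsAlgClosed Ω] [Algebra.IsAlgebraic F Ω]
    (M : IntermediateField F Ω) (hM : ∀ c : algebraicClosure k Ω, (c : Ω) ∈ M)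
    (x y : F) (hxy : algebraMap k F a * y ^ n =
      aeval x ((∏ i, f i ^ e i).map (algebraMap A k)))
    (hroot : ∀ θ θ' : Ω, aeval θ ((∏ i, f i).map (algebraMap A k)) = 0 →
      aeval θ' ((∏ i, f i).map (algebraMap A k)) = 0 →
      ∃ z ∈ M, z ^ d = (algebraMap F Ω x - θ) / (algebraMap F Ω x - θ')) :
    IsEmpty (MSection k F Ω M) := by
  obtain ⟨n', rfl⟩ := hdn
  refine local_M d hd f e hlc (separable_residue ρ hρ _ hs) (factorDiv_residue ρ hρ _ _ hσ) ϖ hϖ
    a t ht m hm ha M hM x (y ^ n') ?_ hroot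
  rw [← pow_mul, mul_comm n' d]
  exact hxy

theorem res_P (x y : k) : a * y ^ n ≠ ((∏ i, f i ^ e i).map (algebraMap A k)).eval x := by
  obtain ⟨n', rfl⟩ := hdn
  have h := local_P d hd f e hlc (separable_residue ρ hρ _ hs) (factorDiv_residue ρ hρ _ _ hσ) ϖ
    hϖ a t ht m hm ha x (y ^ n')
  rwa [← pow_mul, mul_comm n' d] at h

theorem res_inf (r : k) :
    a * r ^ Nat.gcd n ((∏ i, f i ^ e i).map (algebraMap A k)).natDegree ≠
      ((∏ i, f i ^ e i).map (algebraMap A k)).leadingCoeff := by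
  classical
  have hinj := IsFractionRing.injective A k
  have hf0 : ∀ i, f i ≠ 0 := fun i h0 => by
    have := hlc i
    rw [h0, leadingCoeff_zero] at this
    exact not_isUnit_zero this
  have hlcP : IsUnit (∏ i, f i ^ e i).leadingCoeff := by
    rw [leadingCoeff_prod, IsUnit.prod_univ_iff]
    intro i
    rw [leadingCoeff_pow]
    exact (hlc i).pow _
  have hlck : ((∏ i, f i ^ e i).map (algebraMap A k)).leadingCoeff =
      algebraMap A k (∏ i, f i ^ e i).leadingCoeff :=
    leadingCoeff_map_of_injective hinj _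
  have hdeg : d ∣ ((∏ i, f i ^ e i).map (algebraMap A k)).natDegree := by
    rw [natDegree_map_eq_of_injective hinj, natDegree_prod _ _ fun i _ => pow_ne_zero _ (hf0 i)]
    refine Finset.dvd_sum fun i _ => ?_
    rw [natDegree_pow]
    refine Dvd.dvd.mul_left ?_ _
    have h2 : ((f i).map ρ).natDegree = (f i).natDegree :=
      natDegree_map_of_leadingCoeff_ne_zero _ ((hlc i).map _).ne_zero
    have h3 : (f i).map ρ ∣ (∏ i, f i).map ρ :=
      Polynomial.map_dvd _ (Finset.dvd_prod_of_mem f (Finset.mem_univ i))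
    rw [← h2]
    have h4 : (f i).map ρ ≠ 0 := fun h0 => by
      rw [h0] at h3
      exact hs.ne_zero (zero_dvd_iff.1 h3)
    have h5 : FactorDiv (Nat.gcd 2 d * d) ((f i).map ρ) := fun g hg hgf => hσ g hg (hgf.trans h3)
    exact (Dvd.intro_left _ rfl).trans (h5.natDegree h4)
  obtain ⟨g', hg'⟩ := Nat.dvd_gcd hdn hdeg
  rw [hg', hlck]
  obtain ⟨u, hu⟩ := hlcP
  rw [← hu]
  intro hr
  have hu0 : algebraMap A k u ≠ 0 := (u.isUnit.map (algebraMap A k)).ne_zero
  have hinv : algebraMap A k ((u⁻¹ : Aˣ) : A) = (algebraMap A k u)⁻¹ := by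
    refine eq_inv_of_mul_eq_one_left ?_
    rw [← map_mul, Units.inv_mul, map_one]
  refine local_P (A := A) (k := k) d hd (fun i : Empty => i.elim) (fun i : Empty => i.elim)
    (fun i => i.elim) (by simp)
    (fun g hg hg1 => by
      rw [Finset.univ_eq_empty, Finset.prod_empty, Polynomial.map_one] at hg1
      exact absurd (isUnit_of_dvd_one hg1) hg.not_isUnit) ϖ hϖ
    (algebraMap A k (t * ((u⁻¹ : Aˣ) : A)) * algebraMap A k ϖ ^ m) (t * ((u⁻¹ : Aˣ) : A))
    (ht.mul (u⁻¹).isUnit) m hm rfl 0 (r ^ g') ?_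
  simp only [Finset.univ_eq_empty, Finset.prod_empty, Polynomial.map_one, eval_one]
  rw [map_mul, hinv, ← pow_mul, mul_comm g' d]
  calc algebraMap A k t * (algebraMap A k u)⁻¹ * algebraMap A k ϖ ^ m * r ^ (d * g') =
        (algebraMap A k t * algebraMap A k ϖ ^ m * r ^ (d * g')) * (algebraMap A k u)⁻¹ := by ring
    _ = 1 := by rw [← ha, hr, mul_inv_cancel₀ hu0]

end

end Pool.Agent.TH377.LocG
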