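import Pool.Agent.TH120.Sec.Abs

/-!
# The Kummer argument with a transitive group of automorphisms
-/

set_option autoImplicit false

namespace Pool.Agent.TH377.LocG

open Pool.Agent.W620.SC Pool.Agent.W623.SecC Pool.Agent.TH120.Sec

/-- the combinatorial lemma: an invariant additive function on pairs of elements of an orbit -/
lemma sum_class {X : Type*} (d : ℕ) [NeZero d] (C : Finset X)
    (hC : Nat.gcd 2 d * d ∣ C.card) (w : X → X → ZMod d) (hadd : ∀ x y z, w x y + w y z = w x z)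
    (htr : ∀ z ∈ C, ∀ z' ∈ C, ∃ π : Equiv.Perm X, (∀ x, π x ∈ C ↔ x ∈ C) ∧ π z = z' ∧
      ∀ x y, w (π x) (π y) = w x y) (z0 : X) :
    ∑ x ∈ C, w x z0 = 0 := by
  classical
  have hd0 : 0 < d := Nat.pos_of_ne_zero (NeZero.ne d)
  rcases C.eq_empty_or_nonempty with rfl | ⟨z, hz⟩
  · exact Finset.sum_empty
  have hCd : d ∣ C.card := (Dvd.intro_left _ rfl).trans hC
  have hself : ∀ x, w x x = 0 := by
    intro x
    have h := hadd x x x
    exact add_eq_left.1 h
  have hneg : ∀ x y, w y x = - w x y := by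
    intro x y
    have h := hadd x y x
    rw [hself] at h
    exact (neg_eq_of_add_eq_zero_right h).symm
  have h1 : ∑ x ∈ C, w x z0 = ∑ x ∈ C, w x z := by
    have h2 : ∀ x ∈ C, w x z0 = w x z + w z z0 := fun x _ => (hadd x z z0).symm
    rw [Finset.sum_congr rfl h2, Finset.sum_add_distrib, Finset.sum_const, nsmul_eq_mul,
      (ZMod.natCast_eq_zero_iff _ _).2 hCd, zero_mul, add_zero]
  rw [h1]
  let n : ZMod d → X → ℕ := fun c y => (C.filter fun x => w x y = c).card
  have hn : ∀ c, ∀ y ∈ C, n c y = n c z := by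
    intro c y hy
    obtain ⟨π, hπC, hπy, hπw⟩ := htr z hz y hy
    change (C.filter fun x => w x y = c).card = (C.filter fun x => w x z = c).card
    symm
    refine Finset.card_bij (fun x _ => π x) ?_ (fun a _ b _ h => π.injective h) ?_
    · intro x hx
      rw [Finset.mem_filter] at hx ⊢
      refine ⟨(hπC x).2 hx.1, ?_⟩
      rw [← hπy, hπw]
      exact hx.2
    · intro b hb
      rw [Finset.mem_filter] at hb
      refine ⟨π.symm b, ?_, π.apply_symm_apply b⟩
      rw [Finset.mem_filter]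
      constructor
      · rw [← hπC, π.apply_symm_apply]
        exact hb.1
      · rw [← hπw, π.apply_symm_apply, hπy]
        exact hb.2
  have hnpos : ∀ c, ∀ y ∈ C, (∃ x ∈ C, w x y = c) ↔ 0 < n c y := by
    intro c y _
    rw [Finset.card_pos]
    constructor
    · rintro ⟨x, hx, hxy⟩
      exact ⟨x, Finset.mem_filter.2 ⟨hx, hxy⟩⟩
    · rintro ⟨x, hx⟩
      exact ⟨x, (Finset.mem_filter.1 hx).1, (Finset.mem_filter.1 hx).2⟩
  have hmove : ∀ c, ∀ y ∈ C, ∀ y' ∈ C, (∃ x ∈ C, w x y = c) → ∃ x ∈ C, w x y' = c := by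
    intro c y hy y' hy' h
    rw [hnpos c y hy, hn c y hy] at h
    rw [hnpos c y' hy', hn c y' hy']
    exact h
  -- the subgroup of values
  let H : AddSubgroup (ZMod d) :=
    { carrier := {c | ∃ x ∈ C, w x z = c}
      zero_mem' := ⟨z, hz, hself z⟩
      add_mem' := by
        rintro a b ⟨x, hx, hxa⟩ hb
        obtain ⟨y, hy, hyb⟩ := hmove b z hz x hx hb
        refine ⟨y, hy, ?_⟩
        rw [← hadd y x z, hxa, hyb, add_comm]
      neg_mem' := by
        rintro a ⟨x, hx, hxa⟩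
        refine hmove (-a) x hx z hz ⟨z, hz, ?_⟩
        rw [hneg, hxa] }
  have hmemH : ∀ c, c ∈ H ↔ ∃ x ∈ C, w x z = c := fun c => Iff.rfl
  have hconst : ∀ c ∈ H, n c z = n 0 z := by
    intro c hc
    obtain ⟨x, hx, hxc⟩ := (hmemH c).1 hc
    rw [← hn 0 x hx]
    change (C.filter fun y => w y z = c).card = (C.filter fun y => w y x = 0).card
    congr 1
    refine Finset.filter_congr fun y _ => ?_
    rw [← hadd y x z, hxc]
    exact add_eq_right
  have hout : ∀ c, c ∉ H → n c z = 0 := by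
    intro c hc
    by_contra h
    exact hc ((hnpos c z hz).2 (Nat.pos_of_ne_zero h))
  let HF : Finset (ZMod d) := Finset.univ.filter fun c => c ∈ H
  have hT : ∑ x ∈ C, w x z = (n 0 z : ZMod d) * ∑ c ∈ HF, c := by
    rw [← Finset.sum_fiberwise C (fun x => w x z) (fun x => w x z), Finset.mul_sum,
      Finset.sum_filter]
    refine Finset.sum_congr rfl fun c _ => ?_
    rw [Finset.sum_congr rfl (g := fun _ => c) (fun x hx => (Finset.mem_filter.1 hx).2),
      Finset.sum_const, nsmul_eq_mul]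
    change ((n c z : ℕ) : ZMod d) * c = _
    by_cases hc : c ∈ H
    · rw [if_pos hc, hconst c hc]
    · rw [if_neg hc, hout c hc, Nat.cast_zero, zero_mul]
  have hcardC : C.card = n 0 z * HF.card := by
    rw [Finset.card_eq_sum_card_fiberwise (f := fun x => w x z) (t := HF)]
    · rw [Finset.sum_congr rfl (g := fun _ => n 0 z)
        (fun c hc => hconst c (Finset.mem_filter.1 hc).2), Finset.sum_const, smul_eq_mul, mul_comm]
    · intro x hx
      exact Finset.mem_coe.2 (Finset.mem_filter.2 ⟨Finset.mem_univ _, (hmemH _).2 ⟨x, hx, rfl⟩⟩)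
  have hHcard : HF.card ∣ d := by
    have h2 := H.card_addSubgroup_dvd_card
    rw [Nat.card_zmod, Nat.card_eq_fintype_card] at h2
    have h3 : Fintype.card H = HF.card := Fintype.card_subtype _
    rwa [h3] at h2
  have h2S : (2 : ZMod d) * ∑ c ∈ HF, c = 0 := by
    have h3 : ∑ c ∈ HF, c = ∑ c ∈ HF, -c := by
      refine Finset.sum_nbij' (fun c => -c) (fun c => -c) ?_ ?_ ?_ ?_ ?_
      · intro c hc
        exact Finset.mem_filter.2 ⟨Finset.mem_univ _, H.neg_mem (Finset.mem_filter.1 hc).2⟩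
      · intro c hc
        exact Finset.mem_filter.2 ⟨Finset.mem_univ _, H.neg_mem (Finset.mem_filter.1 hc).2⟩
      · intro c _
        exact neg_neg c
      · intro c _
        exact neg_neg c
      · intro c _
        exact (neg_neg c).symm
    rw [two_mul]
    nth_rewrite 2 [h3]
    rw [← Finset.sum_add_distrib]
    refine Finset.sum_eq_zero fun c _ => add_neg_cancel c
  rw [hT]
  rcases Nat.even_or_odd d with hev | hodd
  · have hg : Nat.gcd 2 d = 2 := Nat.gcd_eq_left (even_iff_two_dvd.1 hev)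
    rw [hg, hcardC] at hC
    obtain ⟨q, hq⟩ := hHcard
    have hHpos : 0 < HF.card := Finset.card_pos.2 ⟨0, Finset.mem_filter.2
      ⟨Finset.mem_univ _, H.zero_mem⟩⟩
    have h3 : 2 * q ∣ n 0 z := by
      have h4 : HF.card * (2 * q) ∣ HF.card * n 0 z := by
        have h5 : HF.card * (2 * q) = 2 * d := by
          conv_rhs => rw [hq]
          ring
        rw [h5, mul_comm HF.card]
        exact hC
      exact Nat.dvd_of_mul_dvd_mul_left hHpos h4
    obtain ⟨b, hb⟩ := (Dvd.intro _ rfl : 2 ∣ 2 * q).trans h3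
    rw [hb, Nat.cast_mul, Nat.cast_ofNat, mul_comm (2 : ZMod d), mul_assoc, h2S, mul_zero]
  · have h3 : IsUnit (2 : ZMod d) := by
      have h4 : Nat.Coprime 2 d := Nat.coprime_two_left.2 hodd
      have h5 := (ZMod.unitOfCoprime 2 h4).isUnit
      rwa [ZMod.coe_unitOfCoprime, Nat.cast_ofNat] at h5
    have h4 : ∑ c ∈ HF, c = 0 := by
      have h5 : (2 : ZMod d) * ∑ c ∈ HF, c = 2 * 0 := by rw [h2S, mul_zero]
      exact h3.mul_left_cancel h5
    rw [h4, mul_zero]

variable {k A M : Type*} [Field k] [Field A] [Field M] [Algebra k A] (D : TDat k A M)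

/-- an automorphism that respects the data, with its action on the points -/
def GoodAut {X : Type*} (θ : X → A) (e : X → ℕ) {Y : Type*} (cl : X → Y) (S : IntermediateField k A)
    (V : ValuationSubring A) (φ : A ≃ₐ[k] A) (π : Equiv.Perm X) : Prop :=
  (∀ x, φ x ∈ V ↔ x ∈ V) ∧ (∀ x, φ x ∈ S ↔ x ∈ S) ∧ (∀ i, φ (θ i) = θ (π i)) ∧
    (∀ i, e (π i) = e i) ∧ ∀ i, cl (π i) = cl i

/-- **The main argument.** -/
theorem absG [CharZero k] [IsAlgClosed A] [Algebra.IsAlgebraic k A] (ℓ : ℕ) (hℓ0 : 0 < ℓ)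
    {X : Type*} [Fintype X] (θ : X → A) (hθS : ∀ i, θ i ∈ D.S) (e : X → ℕ)
    {Y : Type*} (cl : X → Y) (hp : ∃ b : k, D.p = algebraMap k A b)
    (htr : ∀ x x', cl x = cl x' → ∃ φ π, GoodAut θ e cl D.S D.V φ π ∧ π x = x')
    (hcard : ∀ x, Nat.gcd 2 ℓ * ℓ ∣ Nat.card {x' // cl x' = cl x})
    (x y : M) (hx : ∀ σ, D.s σ x = x) (hy : ∀ σ, D.s σ y = y) (c : A) (hcS : c ∈ D.S) (m : ℤ)
    (hm : ¬ (ℓ : ℤ) ∣ m) (hc : IsU D.V (c / D.p ^ m))
    (hxy : D.ι c * y ^ ℓ = ∏ i, (x - D.ι (θ i)) ^ (e i)) (hne : ∀ i, x ≠ D.ι (θ i))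
    (hroot : ∀ i i', ∃ α : M, α ^ ℓ = (x - D.ι (θ i)) / (x - D.ι (θ i'))) : False := by
  classical
  have : NeZero ℓ := ⟨hℓ0.ne'⟩
  have hxR : x ∈ D.RS := fun σ _ => hx σ
  have hyR : y ∈ D.RS := fun σ _ => hy σ
  have hmem : ∀ i, x - D.ι (θ i) ∈ D.RS := fun i => sub_mem hxR (D.ι_mem (hθS i))
  have hne0 : ∀ i, x - D.ι (θ i) ≠ 0 := fun i => sub_ne_zero.2 (hne i)
  have hprod0 : ∏ i, (x - D.ι (θ i)) ^ (e i) ≠ 0 :=
    Finset.prod_ne_zero_iff.2 fun i _ => pow_ne_zero _ (hne0 i)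
  have hy0 : y ≠ 0 := by
    rintro rfl
    rw [zero_pow hℓ0.ne', mul_zero] at hxy
    exact hprod0 hxy.symm
  apply hm
  rw [← ZMod.intCast_zmod_eq_zero_iff_dvd]
  rcases isEmpty_or_nonempty X with hX | ⟨⟨i0⟩⟩
  · have h1 : D.Par ℓ (D.ι c * y ^ ℓ) (m + 0) :=
      (TDat.Par.const hcS hc).mul (TDat.Par.powℓ hyR hy0)
    have h2 : D.Par ℓ (D.ι c * y ^ ℓ) 0 := by
      rw [hxy, Fintype.prod_empty]
      exact TDat.Par.one
    have h3 := TDat.Par.unique hℓ0 h1 h2
    rw [add_zero, Int.cast_zero] at h3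
    exact h3
  · have hpar : ∀ i i', ∃ j, D.Par ℓ ((x - D.ι (θ i)) / (x - D.ι (θ i'))) j := by
      intro i i'
      obtain ⟨α, hα⟩ := hroot i i'
      exact TDat.exists_par hℓ0 (div_mem (hmem i) (hmem i')) (div_ne_zero (hne0 i) (hne0 i')) hα
    choose N hN using hpar
    have hstep : ∀ (φ : A ≃ₐ[k] A) (π : Equiv.Perm X), GoodAut θ e cl D.S D.V φ π →
        ∀ i i', ((N (π i) (π i') : ZMod ℓ)) = N i i' := by
      intro φ π ⟨hφV, hφS, hπ, _, _⟩ i i'
      obtain ⟨b, hb⟩ := hp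
      let D' : TDat k A M := { D with
        φ := φ
        φp := by rw [hb]; exact φ.commutes b
        φV := hφV
        φS := hφS }
      have hN' : D'.Par ℓ ((x - D.ι (θ i)) / (x - D.ι (θ i'))) (N i i') := hN i i'
      have h1 := hN'.map_φ
      have h2 : D'.s D'.φ ((x - D.ι (θ i)) / (x - D.ι (θ i'))) =
          (x - D.ι (θ (π i))) / (x - D.ι (θ (π i'))) := by
        change D.s φ _ = _
        rw [map_div₀, map_sub, map_sub, hx, D.hι, D.hι, hπ, hπ]
      rw [h2] at h1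
      have h1' : D.Par ℓ ((x - D.ι (θ (π i))) / (x - D.ι (θ (π i')))) (N i i') := h1
      exact TDat.Par.unique hℓ0 (hN (π i) (π i')) h1'
    have hadd : ∀ i i' i'', ((N i i' : ZMod ℓ)) + N i' i'' = N i i'' := by
      intro i i' i''
      have h1 := (hN i i').mul (hN i' i'')
      rw [div_mul_div_cancel₀ (hne0 i')] at h1
      have h2 := TDat.Par.unique hℓ0 (hN i i'') h1
      rw [h2, Int.cast_add]
    -- the classes
    let cls : X → Finset X := fun x => Finset.univ.filter fun x' => cl x' = cl x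
    have hclmem : ∀ x x', x' ∈ cls x ↔ cl x' = cl x := by
      intro x x'
      exact ⟨fun h => (Finset.mem_filter.1 h).2, fun h => Finset.mem_filter.2 ⟨Finset.mem_univ _, h⟩⟩
    have hclscard : ∀ x, Nat.gcd 2 ℓ * ℓ ∣ (cls x).card := by
      intro x
      have h1 := hcard x
      rw [Nat.card_eq_fintype_card, Fintype.card_subtype] at h1
      exact h1
    have hclass : ∀ x, ∑ i ∈ cls x, ((N i i0 : ZMod ℓ)) = 0 := by
      intro x
      refine sum_class ℓ (cls x) (hclscard x) (fun i i' => (N i i' : ZMod ℓ)) hadd ?_ i0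
      intro z hz z' hz'
      obtain ⟨φ, π, hg, hπz⟩ := htr z z' (((hclmem _ _).1 hz).trans ((hclmem _ _).1 hz').symm)
      refine ⟨π, ?_, hπz, fun i i' => hstep φ π hg i i'⟩
      intro i
      rw [hclmem, hclmem, hg.2.2.2.2]
    have hecl : ∀ i i', cl i = cl i' → e i = e i' := by
      intro i i' h
      obtain ⟨φ, π, hg, hπ⟩ := htr i i' h
      rw [← hπ, hg.2.2.2.1]
    have hfib : ∀ F : X → ZMod ℓ, (∀ x, ∑ i ∈ cls x, F i = 0) → ∑ i, F i = 0 := by
      intro F hF
      rw [← Finset.sum_fiberwise_of_maps_to (s := Finset.univ) (t := Finset.univ.image cl)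
        (g := cl) (fun i _ => Finset.mem_image_of_mem _ (Finset.mem_univ i))]
      refine Finset.sum_eq_zero fun y hy => ?_
      obtain ⟨x, -, rfl⟩ := Finset.mem_image.1 hy
      exact hF x
    have hsum : ∑ i, ((e i : ℕ) : ZMod ℓ) * (N i i0 : ZMod ℓ) = 0 := by
      refine hfib _ fun x => ?_
      rw [Finset.sum_congr rfl (g := fun i => ((e x : ℕ) : ZMod ℓ) * (N i i0 : ZMod ℓ))
        (fun i hi => by rw [hecl i x ((hclmem _ _).1 hi)]), ← Finset.mul_sum, hclass, mul_zero]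
    have hdeg : ∑ i, ((e i : ℕ) : ZMod ℓ) = 0 := by
      refine hfib _ fun x => ?_
      rw [Finset.sum_congr rfl (g := fun _ => ((e x : ℕ) : ZMod ℓ))
        (fun i hi => by rw [hecl i x ((hclmem _ _).1 hi)]), Finset.sum_const, nsmul_eq_mul,
        (ZMod.natCast_eq_zero_iff _ _).2 ((Dvd.intro_left _ rfl).trans (hclscard x)), zero_mul]
    rw [← Nat.cast_sum, ZMod.natCast_eq_zero_iff] at hdeg
    obtain ⟨d, hd⟩ := hdeg
    have h1 : D.Par ℓ (∏ i, ((x - D.ι (θ i)) / (x - D.ι (θ i0))) ^ (e i))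
        (∑ i, (e i : ℤ) * N i i0) := TDat.Par.prod _ _ _ fun i _ => (hN i i0).pow (e i)
    have h2 : ∏ i, ((x - D.ι (θ i)) / (x - D.ι (θ i0))) ^ (e i) =
        D.ι c * (y / (x - D.ι (θ i0)) ^ d) ^ ℓ := by
      have h3 : ∏ i, ((x - D.ι (θ i)) / (x - D.ι (θ i0))) ^ (e i) =
          (∏ i, (x - D.ι (θ i)) ^ (e i)) / (x - D.ι (θ i0)) ^ (∑ i, e i) := by
        rw [← Finset.prod_pow_eq_pow_sum, ← Finset.prod_div_distrib]
        exact Finset.prod_congr rfl fun i _ => div_pow _ _ _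
      rw [h3, ← hxy, hd, div_pow, ← pow_mul, mul_comm d ℓ, mul_div_assoc]
    have h4 : D.Par ℓ (∏ i, ((x - D.ι (θ i)) / (x - D.ι (θ i0))) ^ (e i)) (m + 0) := by
      rw [h2]
      exact (TDat.Par.const hcS hc).mul (TDat.Par.powℓ (div_mem hyR (pow_mem (hmem i0) d))
        (div_ne_zero hy0 (pow_ne_zero _ (hne0 i0))))
    have h5 := TDat.Par.unique hℓ0 h4 h1
    rw [add_zero, Int.cast_sum] at h5
    rw [h5, ← hsum]
    refine Finset.sum_congr rfl fun i _ => ?_
    push_cast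
    rfl

end Pool.Agent.TH377.LocG
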