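import Pool.Agent.TH120.Sec.Abs


/-!
# The ratios `(x - θ)/(x - θ')` on a cyclic cover of degree `ℓ`
-/

set_option autoImplicit false

namespace Pool.Agent.TH377.LocG

open Pool.Agent.W620.SC Pool.Agent.W623.SecC Pool.Agent.TH120.Sec

/-- ratios of the `x - θ i` are `ℓ`-th powers up to units at all places -/
lemma ratio_local {Ω A : Type*} [Field Ω] [Field A] (j : A →+* Ω) (W : ValuationSubring Ω)
    (hW : ∀ c, j c ∈ W) {X : Type*} [Fintype X] (θ : X → A)
    (hθ : Function.Injective θ) (ℓ : ℕ) (e : X → ℕ) (he : ∀ i, Nat.Coprime ℓ (e i))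
    (x y : Ω) (hy0 : y ≠ 0) (c : A) (hc : c ≠ 0)
    (hxy : j c * y ^ ℓ = ∏ i, (x - j (θ i)) ^ (e i)) (i i' : X)
    (hi0 : x - j (θ i) ≠ 0) (hi'0 : x - j (θ i') ≠ 0) :
    ∃ (t : Ω) (a b b' : ℤ), t = y ^ a * (x - j (θ i)) ^ b * (x - j (θ i')) ^ b' ∧ t ≠ 0 ∧
      (x - j (θ i)) / (x - j (θ i')) / t ^ ℓ ∈ W ∧ t ^ ℓ / ((x - j (θ i)) / (x - j (θ i'))) ∈ W := by
  classical
  have hconst : ∀ a : A, a ≠ 0 → IsU W (j a) := fun a ha =>
    ⟨(_root_.map_ne_zero j).2 ha, hW a, by rw [← map_inv₀]; exact hW _⟩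
  have hsuff : ∀ a b b' : ℤ, IsU W ((x - j (θ i)) / (x - j (θ i')) /
      (y ^ a * (x - j (θ i)) ^ b * (x - j (θ i')) ^ b') ^ ℓ) →
      ∃ (t : Ω) (a b b' : ℤ), t = y ^ a * (x - j (θ i)) ^ b * (x - j (θ i')) ^ b' ∧ t ≠ 0 ∧
      (x - j (θ i)) / (x - j (θ i')) / t ^ ℓ ∈ W ∧
        t ^ ℓ / ((x - j (θ i)) / (x - j (θ i'))) ∈ W := by
    intro a b b' h
    refine ⟨_, a, b, b', rfl, mul_ne_zero (mul_ne_zero (zpow_ne_zero _ hy0) (zpow_ne_zero _ hi0))
      (zpow_ne_zero _ hi'0), h.2.1, ?_⟩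
    have := h.2.2
    rwa [inv_div] at this
  by_cases hx : x ∈ W
  · have hmem : ∀ l, x - j (θ l) ∈ W := fun l => sub_mem hx (hW _)
    -- at most one of the factors is a nonunit
    have hother : ∀ l, x - j (θ l) ∈ W.nonunits → ∀ l', l' ≠ l → IsU W (x - j (θ l')) := by
      intro l hl l' hl'
      have h1 : x - j (θ l') = j (θ l - θ l') + (x - j (θ l)) := by
        rw [map_sub]
        ring
      rw [h1]
      exact isU_add_nonunit (hconst _ (sub_ne_zero.2 (hθ.ne hl'.symm))) hl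
    -- the local computation at a root
    have hkey : ∀ l, x - j (θ l) ≠ 0 → x - j (θ l) ∈ W.nonunits → ∃ a b : ℤ,
        IsU W ((x - j (θ l)) / (y ^ a * (x - j (θ l)) ^ b) ^ ℓ) := by
      intro l hl0 hl
      have hcop : Nat.Coprime ℓ (e l) := he l
      have hbez : (1 : ℤ) = ℓ * Nat.gcdA ℓ (e l) + e l * Nat.gcdB ℓ (e l) := by
        have := Nat.gcd_eq_gcd_ab ℓ (e l)
        rw [hcop] at this
        exact_mod_cast this
      set u := Nat.gcdB ℓ (e l)
      set w := Nat.gcdA ℓ (e l)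
      refine ⟨u, w, ?_⟩
      have hP : IsU W (∏ l' ∈ Finset.univ.erase l, (x - j (θ l')) ^ (e l')) :=
        IsU.prod _ _ fun l' hl' => (hother l hl l' (Finset.ne_of_mem_erase hl')).pow _
      have h1 : j c * y ^ ℓ = (x - j (θ l)) ^ (e l) *
          ∏ l' ∈ Finset.univ.erase l, (x - j (θ l')) ^ (e l') := by
        rw [hxy, Finset.mul_prod_erase Finset.univ (fun l => (x - j (θ l)) ^ (e l))
          (Finset.mem_univ l)]
      set P := ∏ l' ∈ Finset.univ.erase l, (x - j (θ l')) ^ (e l')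
      have hjc : j c ≠ 0 := (_root_.map_ne_zero j).2 hc
      have h2 : y ^ ℓ = (x - j (θ l)) ^ (e l) * (P / j c) := by
        field_simp
        rw [mul_comm, h1]
      have h3 : (y ^ u * (x - j (θ l)) ^ w) ^ ℓ = (x - j (θ l)) * (P / j c) ^ u := by
        have h4 : (y ^ u) ^ ℓ = (y ^ ℓ) ^ u := by
          rw [← zpow_natCast (y ^ u) ℓ, ← zpow_mul, mul_comm, zpow_mul, zpow_natCast]
        have h5 : ((x - j (θ l)) ^ w) ^ ℓ = (x - j (θ l)) ^ (ℓ * w : ℤ) := by
          rw [← zpow_natCast _ ℓ, ← zpow_mul, mul_comm]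
        rw [mul_pow, h4, h5, h2, mul_zpow, ← zpow_natCast (x - j (θ l)) (e l), ← zpow_mul]
        have h6 : (x - j (θ l)) ^ ((e l : ℤ) * u) * (P / j c) ^ u * (x - j (θ l)) ^ ((ℓ : ℤ) * w) =
            (x - j (θ l)) ^ ((ℓ : ℤ) * w + (e l : ℤ) * u) * (P / j c) ^ u := by
          rw [zpow_add₀ hl0]
          ring
        rw [h6, ← hbez, zpow_one]
      rw [h3]
      have h4 : (x - j (θ l)) / ((x - j (θ l)) * (P / j c) ^ u) = ((P / j c) ^ u)⁻¹ := by
        rw [← div_div, div_self hl0, one_div]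
      rw [h4]
      exact (IsU.zpow (hP.div (hconst c hc)) u).inv
    by_cases hii : i = i'
    · subst hii
      apply hsuff 0 0 0
      rw [div_self hi0, zpow_zero, zpow_zero, mul_one, mul_one, one_pow, div_one]
      exact isU_one
    by_cases hni : x - j (θ i) ∈ W.nonunits
    · obtain ⟨a, b, hab⟩ := hkey i hi0 hni
      apply hsuff a b 0
      rw [zpow_zero, mul_one]
      have h1 : (x - j (θ i)) / (x - j (θ i')) / (y ^ a * (x - j (θ i)) ^ b) ^ ℓ =
          (x - j (θ i)) / (y ^ a * (x - j (θ i)) ^ b) ^ ℓ / (x - j (θ i')) := by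
        rw [div_right_comm]
      rw [h1]
      exact hab.div (hother i hni i' (Ne.symm hii))
    · by_cases hni' : x - j (θ i') ∈ W.nonunits
      · obtain ⟨a, b, hab⟩ := hkey i' hi'0 hni'
        apply hsuff (-a) 0 (-b)
        have h1 : (x - j (θ i)) / (x - j (θ i')) /
            (y ^ (-a) * (x - j (θ i)) ^ (0 : ℤ) * (x - j (θ i')) ^ (-b)) ^ ℓ =
            (x - j (θ i)) / ((x - j (θ i')) / (y ^ a * (x - j (θ i')) ^ b) ^ ℓ) := by
          have hya : y ^ a ≠ 0 := zpow_ne_zero _ hy0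
          have hxb : (x - j (θ i')) ^ b ≠ 0 := zpow_ne_zero _ hi'0
          rw [zpow_neg, zpow_neg, zpow_zero, mul_one, ← mul_inv, inv_pow, div_inv_eq_mul,
            div_mul_eq_mul_div, div_div_eq_mul_div]
        rw [h1]
        exact (hother i' hni' i hii).div hab
      · apply hsuff 0 0 0
        rw [zpow_zero, zpow_zero, zpow_zero, mul_one, mul_one, one_pow, div_one]
        exact (isU_of_not_nonunit (hmem i) hni).div (isU_of_not_nonunit (hmem i') hni')
  · have hx0 : x ≠ 0 := by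
      rintro rfl
      exact hx (zero_mem _)
    have hxn : x⁻¹ ∈ W.nonunits := (W.inv_mem_nonunits_iff).2 (Or.inr hx)
    have hu : ∀ l, IsU W ((x - j (θ l)) / x) := by
      intro l
      have h1 : (x - j (θ l)) / x = 1 + (-j (θ l)) * x⁻¹ := by
        field_simp
        ring
      rw [h1]
      exact isU_add_nonunit isU_one (nonunit_mul (neg_mem (hW _)) hxn)
    apply hsuff 0 0 0
    rw [zpow_zero, zpow_zero, zpow_zero, mul_one, mul_one, one_pow, div_one]
    have h1 : (x - j (θ i)) / (x - j (θ i')) = (x - j (θ i)) / x / ((x - j (θ i')) / x) := by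
      rw [div_div_div_cancel_right₀ hx0]
    rw [h1]
    exact (hu i).div (hu i')

end Pool.Agent.TH377.LocG
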