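import Pool.Agent.TH120.Sec.Gal
import Pool.Agent.TH377.LocG.Rat
import Pool.Agent.TH377.Loc.GalM
import Pool.Agent.TH377.LocG.Abs

/-!
# The Kummer argument with a transitive group, for sections and rational points
-/

set_option autoImplicit false

namespace Pool.Agent.TH377.LocG

open Pool.Agent.W620.SC Pool.Agent.W623.SecC Pool.Agent.TH120.Sec Polynomial IntermediateField
open Pool.Agent.TH377.Loc

universe u v w

/-- no root is fixed by all automorphisms -/
lemma not_fixed {k A : Type*} [Field k] [Field A] [Algebra k A] {X : Type*} (θ : X → A)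
    (hθ : Function.Injective θ) (e : X → ℕ) {Y : Type*} (cl : X → Y) (S : IntermediateField k A)
    (V : ValuationSubring A) (ℓ : ℕ) (hℓ : ℓ ≠ 1)
    (htr : ∀ x x', cl x = cl x' → ∃ φ π, GoodAut θ e cl S V φ π ∧ π x = x')
    (hcard : ∀ x, Nat.gcd 2 ℓ * ℓ ∣ Nat.card {x' // cl x' = cl x}) (i : X)
    (hfix : ∀ φ : A ≃ₐ[k] A, φ (θ i) = θ i) : False := by
  have h1 : ∀ x', cl x' = cl i → x' = i := by
    intro x' hx'
    obtain ⟨φ, π, hg, hπ⟩ := htr i x' hx'.symm
    have h2 := hfix φ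
    rw [hg.2.2.1, hπ] at h2
    exact hθ h2
  have h2 : Nat.card {x' // cl x' = cl i} = 1 := by
    rw [Nat.card_eq_one_iff_exists]
    exact ⟨⟨i, rfl⟩, fun x' => Subtype.ext (h1 x'.1 x'.2)⟩
  have h3 := hcard i
  rw [h2] at h3
  exact hℓ (Nat.dvd_one.1 ((Dvd.intro_left _ rfl).trans h3))

/-- no section over `F_U` -/
theorem gal {k : Type u} {F : Type v} {Ω : Type w} [Field k] [Field F] [Field Ω]
    [Algebra k F] [Algebra F Ω] [Algebra k Ω] [IsScalarTower k F Ω] [CharZero k] [IsAlgClosed Ω]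
    [Algebra.IsAlgebraic F Ω]
    (U : Set (ValuationSubring F)) (hU : ∀ O ∈ U, ∀ c : k, algebraMap k F c ∈ O)
    (G : GSection k F Ω U) (V : ValuationSubring (algebraicClosure k Ω))
    (S : IntermediateField k (algebraicClosure k Ω)) (ϖ : k) (ϖ0 : ϖ ≠ 0)
    (ϖn : algebraMap k (algebraicClosure k Ω) ϖ ∈ V.nonunits)
    (tame : ∀ c ∈ S, c ≠ 0 → ∃ j : ℤ, IsU V (c / algebraMap k (algebraicClosure k Ω) ϖ ^ j))
    (ℓ : ℕ) (hℓ0 : 0 < ℓ)
    {X : Type*} [Fintype X] (θ : X → algebraicClosure k Ω) (hθS : ∀ i, θ i ∈ S)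
    (hθ : Function.Injective θ) (e : X → ℕ) (he : ∀ i, Nat.Coprime ℓ (e i)) {Y : Type*} (cl : X → Y)
    (htr : ∀ x x', cl x = cl x' → ∃ φ π, GoodAut θ e cl S V φ π ∧ π x = x')
    (hcard : ∀ x, Nat.gcd 2 ℓ * ℓ ∣ Nat.card {x' // cl x' = cl x})
    (x y : F) (c : algebraicClosure k Ω) (hcS : c ∈ S) (m : ℤ)
    (hm : ¬ (ℓ : ℤ) ∣ m) (hc : IsU V (c / algebraMap k (algebraicClosure k Ω) ϖ ^ m))
    (hxy : (c : Ω) * algebraMap F Ω y ^ ℓ = ∏ i, (algebraMap F Ω x - (θ i : Ω)) ^ (e i)) :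
    False := by
  have hℓ : ℓ ≠ 1 := by
    rintro rfl
    exact hm (by simp)
  have hac : IsAlgClosure k (algebraicClosure k Ω) := inferInstance
  have hA : IsAlgClosed (algebraicClosure k Ω) := hac.1
  have hWk : ∀ W : ValuationSubring Ω, W.comap (algebraMap F Ω) ∈ U →
      ∀ c : k, algebraMap k Ω c ∈ W := by
    intro W hW c
    rw [IsScalarTower.algebraMap_apply k F Ω]
    exact hU _ hW c
  have hWA : ∀ W : ValuationSubring Ω, W.comap (algebraMap F Ω) ∈ U →
      ∀ c : algebraicClosure k Ω, algebraMap (algebraicClosure k Ω) Ω c ∈ W := by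
    intro W hW c
    exact const_mem (hWk W hW) c.2
  have hc0 : c ≠ 0 := by
    rintro rfl
    rw [zero_div] at hc
    exact hc.1 rfl
  -- constants of `F`
  have hfixF : ∀ (z : F) (b : algebraicClosure k Ω), (b : Ω) = algebraMap F Ω z →
      ∀ σ : algebraicClosure k Ω ≃ₐ[k] algebraicClosure k Ω, σ b = b := by
    intro z b hb σ
    apply Subtype.ext
    rw [← G.compat σ b (algebraMap F (unramified F Ω U) z) hb.symm, (G.toHom σ).commutes]
    exact hb.symm
  have hne : ∀ i, (θ i : Ω) ≠ algebraMap F Ω x := fun i hi =>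
    not_fixed θ hθ e cl S V ℓ hℓ htr hcard i fun φ => hfixF x (θ i) hi φ
  have hne0 : ∀ i, algebraMap F Ω x - algebraMap (algebraicClosure k Ω) Ω (θ i) ≠ 0 :=
    fun i => sub_ne_zero.2 (Ne.symm (hne i))
  have hy0 : algebraMap F Ω y ≠ 0 := by
    intro h
    rw [h, zero_pow hℓ0.ne', mul_zero] at hxy
    obtain ⟨i, -, hi⟩ := Finset.prod_eq_zero_iff.1 hxy.symm
    refine hne0 i (pow_eq_zero_iff (fun h => hℓ ?_) |>.1 hi)
    have h2 := he i
    rwa [h, Nat.coprime_zero_right] at h2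
  refine absG (mkT U hU G V S ϖ ϖ0 ϖn tame 1 (fun _ => Iff.rfl) (fun _ => Iff.rfl)) ℓ hℓ0
    θ hθS e cl ⟨ϖ, rfl⟩ htr hcard
    (algebraMap F (unramified F Ω U) x) (algebraMap F (unramified F Ω U) y)
    (fun σ => (G.toHom σ).commutes x) (fun σ => (G.toHom σ).commutes y) c hcS m hm hc ?_ ?_ ?_
  · apply (algebraMap (unramified F Ω U) Ω).injective
    rw [map_mul, map_pow, map_prod]
    simp only [map_pow]
    exact hxy
  · intro i h
    exact hne i (congrArg (algebraMap (unramified F Ω U) Ω) h).symm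
  · intro i i'
    set D := mkT U hU G V S ϖ ϖ0 ϖn tame 1 (fun _ => Iff.rfl) (fun _ => Iff.rfl) with hD
    have hval : (((algebraMap F (unramified F Ω U) x - D.ι (θ i)) /
        (algebraMap F (unramified F Ω U) x - D.ι (θ i')) : unramified F Ω U) : Ω) =
          (algebraMap F Ω x - algebraMap (algebraicClosure k Ω) Ω (θ i)) /
            (algebraMap F Ω x - algebraMap (algebraicClosure k Ω) Ω (θ i')) := by
      change algebraMap (unramified F Ω U) Ω ((algebraMap F (unramified F Ω U) x - D.ι (θ i)) /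
        (algebraMap F (unramified F Ω U) x - D.ι (θ i'))) = _
      rw [map_div₀, map_sub, map_sub]
      rfl
    refine exists_root_unramified (k := k) U hU hℓ0 _ ?_
    intro _ W hW
    rw [hval]
    obtain ⟨t, a, b, b', ht, ht0, h3, h4⟩ := LocG.ratio_local (algebraMap (algebraicClosure k Ω) Ω) W
      (hWA W hW) θ hθ ℓ e he (algebraMap F Ω x) (algebraMap F Ω y) hy0 c hc0 hxy i i'
      (hne0 i) (hne0 i')
    refine ⟨t, ?_, ht0, h3, h4⟩
    rw [ht]
    refine mul_mem (mul_mem (zpow_mem (IntermediateField.algebraMap_mem _ y) _)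
      (zpow_mem (sub_mem (IntermediateField.algebraMap_mem _ x) (D.ι _).2) _))
      (zpow_mem (sub_mem (IntermediateField.algebraMap_mem _ x) (D.ι _).2) _)

/-- no section over an extension that contains the roots of the ratios -/
theorem galM {k : Type u} {F : Type v} {Ω : Type w} [Field k] [Field F] [Field Ω]
    [Algebra k F] [Algebra F Ω] [Algebra k Ω] [IsScalarTower k F Ω] [CharZero k] [IsAlgClosed Ω]
    [Algebra.IsAlgebraic F Ω]
    (M : IntermediateField F Ω) (hM : ∀ x : algebraicClosure k Ω, (x : Ω) ∈ M)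
    (G : MSection k F Ω M) (V : ValuationSubring (algebraicClosure k Ω))
    (S : IntermediateField k (algebraicClosure k Ω)) (ϖ : k) (ϖ0 : ϖ ≠ 0)
    (ϖn : algebraMap k (algebraicClosure k Ω) ϖ ∈ V.nonunits)
    (tame : ∀ c ∈ S, c ≠ 0 → ∃ j : ℤ, IsU V (c / algebraMap k (algebraicClosure k Ω) ϖ ^ j))
    (ℓ : ℕ) (hℓ0 : 0 < ℓ)
    {X : Type*} [Fintype X] (θ : X → algebraicClosure k Ω) (hθS : ∀ i, θ i ∈ S)
    (hθ : Function.Injective θ) (e : X → ℕ) {Y : Type*} (cl : X → Y)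
    (htr : ∀ x x', cl x = cl x' → ∃ φ π, GoodAut θ e cl S V φ π ∧ π x = x')
    (hcard : ∀ x, Nat.gcd 2 ℓ * ℓ ∣ Nat.card {x' // cl x' = cl x})
    (x y : F) (c : algebraicClosure k Ω) (hcS : c ∈ S) (m : ℤ)
    (hm : ¬ (ℓ : ℤ) ∣ m) (hc : IsU V (c / algebraMap k (algebraicClosure k Ω) ϖ ^ m))
    (hxy : (c : Ω) * algebraMap F Ω y ^ ℓ = ∏ i, (algebraMap F Ω x - (θ i : Ω)) ^ (e i))
    (hroot : ∀ i i', ∃ z ∈ M, z ^ ℓ = (algebraMap F Ω x - (θ i : Ω)) /
      (algebraMap F Ω x - (θ i' : Ω))) :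
    False := by
  have hℓ : ℓ ≠ 1 := by
    rintro rfl
    exact hm (by simp)
  have hac : IsAlgClosure k (algebraicClosure k Ω) := inferInstance
  have hA : IsAlgClosed (algebraicClosure k Ω) := hac.1
  -- constants of `F`
  have hfixF : ∀ (z : F) (b : algebraicClosure k Ω), (b : Ω) = algebraMap F Ω z →
      ∀ σ : algebraicClosure k Ω ≃ₐ[k] algebraicClosure k Ω, σ b = b := by
    intro z b hb σ
    apply Subtype.ext
    rw [← G.compat σ b (algebraMap F M z) hb.symm, (G.toHom σ).commutes]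
    exact hb.symm
  have hne : ∀ i, (θ i : Ω) ≠ algebraMap F Ω x := fun i hi =>
    not_fixed θ hθ e cl S V ℓ hℓ htr hcard i fun φ => hfixF x (θ i) hi φ
  refine absG (mkM M hM G V S ϖ ϖ0 ϖn tame 1 (fun _ => Iff.rfl) (fun _ => Iff.rfl)) ℓ hℓ0
    θ hθS e cl ⟨ϖ, rfl⟩ htr hcard (algebraMap F M x) (algebraMap F M y)
    (fun σ => (G.toHom σ).commutes x) (fun σ => (G.toHom σ).commutes y) c hcS m hm hc ?_ ?_ ?_
  · apply (algebraMap M Ω).injective
    rw [map_mul, map_pow, map_prod]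
    simp only [map_pow]
    exact hxy
  · intro i h
    exact hne i (congrArg (algebraMap M Ω) h).symm
  · intro i i'
    obtain ⟨z, hz, hz'⟩ := hroot i i'
    refine ⟨⟨z, hz⟩, ?_⟩
    apply (algebraMap M Ω).injective
    rw [map_pow, map_div₀, map_sub, map_sub]
    exact hz'

/-- no rational point -/
theorem galpt {k : Type u} {A : Type w} [Field k] [Field A] [Algebra k A] [CharZero k]
    [IsAlgClosed A] [Algebra.IsAlgebraic k A] (V : ValuationSubring A)
    (S : IntermediateField k A) (ϖ : k) (ϖ0 : ϖ ≠ 0)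
    (ϖn : algebraMap k A ϖ ∈ V.nonunits)
    (tame : ∀ c ∈ S, c ≠ 0 → ∃ j : ℤ, IsU V (c / algebraMap k A ϖ ^ j))
    (ℓ : ℕ) (hℓ0 : 0 < ℓ)
    {X : Type*} [Fintype X] (θ : X → A) (hθS : ∀ i, θ i ∈ S)
    (hθ : Function.Injective θ) (e : X → ℕ) {Y : Type*} (cl : X → Y)
    (htr : ∀ x x', cl x = cl x' → ∃ φ π, GoodAut θ e cl S V φ π ∧ π x = x')
    (hcard : ∀ x, Nat.gcd 2 ℓ * ℓ ∣ Nat.card {x' // cl x' = cl x})
    (x y : k) (c : A) (hcS : c ∈ S) (m : ℤ)
    (hm : ¬ (ℓ : ℤ) ∣ m) (hc : IsU V (c / algebraMap k A ϖ ^ m))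
    (hxy : c * algebraMap k A y ^ ℓ = ∏ i, (algebraMap k A x - θ i) ^ (e i)) :
    False := by
  have hℓ : ℓ ≠ 1 := by
    rintro rfl
    exact hm (by simp)
  refine absG (idT V S ϖ ϖ0 ϖn tame 1 (fun _ => Iff.rfl) (fun _ => Iff.rfl)) ℓ hℓ0
    θ hθS e cl ⟨ϖ, rfl⟩ htr hcard (algebraMap k A x) (algebraMap k A y)
    (fun σ => σ.commutes x) (fun σ => σ.commutes y) c hcS m hm hc hxy ?_ ?_
  · intro i h
    refine not_fixed θ hθ e cl S V ℓ hℓ htr hcard i fun φ => ?_
    have h2 : θ i = algebraMap k A x := h.symm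
    rw [h2]
    exact φ.commutes x
  · intro i i'
    exact IsAlgClosed.exists_pow_nat_eq _ hℓ0

end Pool.Agent.TH377.LocG
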