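import Pool.Agent.W623.SecF.Dec

/-!
# Lifting automorphisms of the residue field
-/

set_option autoImplicit false

namespace Pool.Agent.TH377.LocG

open Polynomial Pool.Agent.W623.SecC Pool.Agent.W623.SecF

universe u v w

theorem exists_lift_residue (A k : Type u) (kb : Type w) [CommRing A] [IsDomain A]
    [ValuationRing A] [Field k] [Field kb] [Algebra A k] [Algebra k kb] [Algebra A kb]
    [IsScalarTower A k kb] [IsFractionRing A k] [CharZero k] [IsAlgClosure k kb]
    (κb : Type v) [Field κb] [Algebra (IsLocalRing.ResidueField A) κb]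
    [IsAlgClosure (IsLocalRing.ResidueField A) κb] :
    ∃ (V : ValuationSubring kb) (r : integralClosure A kb →+* κb),
      (∀ a : A, algebraMap A kb a ∈ V) ∧
      (∀ a ∈ IsLocalRing.maximalIdeal A, algebraMap A kb a ∈ V.nonunits) ∧
      (∀ a : A, r (algebraMap A (integralClosure A kb) a) =
        algebraMap (IsLocalRing.ResidueField A) κb (IsLocalRing.residue A a)) ∧
      ∀ σ : κb ≃ₐ[IsLocalRing.ResidueField A] κb, ∃ φ : kb ≃ₐ[k] kb,
        (∀ x, φ x ∈ V ↔ x ∈ V) ∧
        ∀ x y : integralClosure A kb, (y : kb) = φ x → r y = σ (r x) := by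
  have hkb : IsAlgClosed kb := IsAlgClosure.isAlgClosed k
  obtain ⟨V, hV, hloc⟩ := IsLocalRing.exists_factor_valuationRing (algebraMap A kb)
  have hm : ∀ a ∈ IsLocalRing.maximalIdeal A, algebraMap A kb a ∈ V.nonunits := by
    intro a ha
    have h2 : algebraMap A kb a ∈ V.nonunits ↔
        (⟨algebraMap A kb a, hV a⟩ : V) ∈ IsLocalRing.maximalIdeal V :=
      V.coe_mem_nonunits_iff (a := ⟨algebraMap A kb a, hV a⟩)
    rw [h2, IsLocalRing.mem_maximalIdeal, mem_nonunits_iff]
    intro h
    exact ha (hloc.map_nonunit a h)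
  set P : Ideal (integralClosure A kb) :=
    (IsLocalRing.maximalIdeal V).comap (((algebraMap (integralClosure A kb) kb).codRestrict
      V.toSubring (int_mem V hV)) : integralClosure A kb →+* V) with hPdef
  have hPmem : ∀ x : integralClosure A kb, x ∈ P ↔ (x : kb) ∈ V.nonunits := by
    intro x
    exact (V.coe_mem_nonunits_iff (a := ⟨(x : kb), int_mem V hV x⟩)).symm
  have hPp : P.IsPrime := Ideal.comap_isPrime _ _
  have hPA : P.comap (algebraMap A (integralClosure A kb)) = IsLocalRing.maximalIdeal A := by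
    ext a
    rw [Ideal.mem_comap, hPmem, ← nonunit_iff V hV hm]
    rfl
  have hlo : P.LiesOver (IsLocalRing.maximalIdeal A) := ⟨hPA.symm⟩
  have hPm : P.IsMaximal := Ideal.isMaximal_of_isIntegral_of_isMaximal_comap P (by
    rw [hPA]; infer_instance)
  let _ : Field (A ⧸ IsLocalRing.maximalIdeal A) := Ideal.Quotient.field _
  let _ : Field (integralClosure A kb ⧸ P) := Ideal.Quotient.field P
  have hint : Algebra.IsIntegral (A ⧸ IsLocalRing.maximalIdeal A) (integralClosure A kb ⧸ P) :=
    inferInstance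
  have halg : Algebra.IsAlgebraic (A ⧸ IsLocalRing.maximalIdeal A)
      (integralClosure A kb ⧸ P) := Algebra.IsIntegral.isAlgebraic
  have hcl : IsAlgClosed (integralClosure A kb ⧸ P) := residue_closed A kb P
  let _ : Algebra (A ⧸ IsLocalRing.maximalIdeal A) κb :=
    inferInstanceAs (Algebra (IsLocalRing.ResidueField A) κb)
  have hac1 : IsAlgClosure (A ⧸ IsLocalRing.maximalIdeal A) κb :=
    inferInstanceAs (IsAlgClosure (IsLocalRing.ResidueField A) κb)
  have hac2 : IsAlgClosure (A ⧸ IsLocalRing.maximalIdeal A) (integralClosure A kb ⧸ P) :=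
    ⟨hcl, halg⟩
  let e : (integralClosure A kb ⧸ P) ≃ₐ[A ⧸ IsLocalRing.maximalIdeal A] κb :=
    IsAlgClosure.equiv _ _ _
  refine ⟨V, (e : (integralClosure A kb ⧸ P) →+* κb).comp (Ideal.Quotient.mk P), hV, hm, ?_,
    ?_⟩
  · intro a
    have h4 : Ideal.Quotient.mk P (algebraMap A (integralClosure A kb) a) =
        algebraMap (A ⧸ IsLocalRing.maximalIdeal A) (integralClosure A kb ⧸ P)
          (Ideal.Quotient.mk _ a) := rfl
    change e (Ideal.Quotient.mk P (algebraMap A (integralClosure A kb) a)) = _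
    rw [h4, AlgEquiv.commutes]
    rfl
  intro σ
  let σ1 : κb ≃ₐ[A ⧸ IsLocalRing.maximalIdeal A] κb := σ
  obtain ⟨g, hg⟩ := exists_lift A k kb (IsLocalRing.maximalIdeal A) P
    ((e.trans σ1).trans e.symm)
  have h1 : ∀ x : integralClosure A kb, g (x : kb) ∈ V.nonunits → (x : kb) ∈ V.nonunits := by
    intro x hx
    obtain ⟨y, hy, hyx⟩ := hg x
    rw [← hy, ← hPmem, ← Ideal.Quotient.eq_zero_iff_mem, hyx,
      EmbeddingLike.map_eq_zero_iff, Ideal.Quotient.eq_zero_iff_mem, hPmem] at hx
    exact hx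
  have h2 : ∀ x : integralClosure A kb, g.symm (x : kb) ∈ V.nonunits →
      (x : kb) ∈ V.nonunits := by
    intro x hx
    have h3 : IsIntegral A (g.symm (x : kb)) :=
      x.2.map ((g.symm : kb →ₐ[k] kb).restrictScalars A)
    obtain ⟨y, hy, hyx⟩ := hg ⟨_, h3⟩
    have hy' : (y : kb) = x := by
      rw [hy]
      exact g.apply_symm_apply _
    rw [← hy', ← hPmem, ← Ideal.Quotient.eq_zero_iff_mem, hyx,
      EmbeddingLike.map_eq_zero_iff, Ideal.Quotient.eq_zero_iff_mem, hPmem]
    exact hx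
  have h3 : ∀ x, g x ∈ V ↔ x ∈ V := by
    intro x
    refine ⟨fun h => ?_, stab_mem V hV hm g h1 x⟩
    have h5 := stab_mem V hV hm g.symm h2 _ h
    rwa [g.symm_apply_apply] at h5
  refine ⟨g, h3, ?_⟩
  · intro x y hxy
    obtain ⟨y', hy', hyx'⟩ := hg x
    have h4 : y = y' := Subtype.ext (hxy.trans hy'.symm)
    change e (Ideal.Quotient.mk P y) = σ1 (e (Ideal.Quotient.mk P x))
    rw [h4, hyx']
    change e (e.symm (σ1 (e (Ideal.Quotient.mk P x)))) = _
    rw [AlgEquiv.apply_symm_apply]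

end Pool.Agent.TH377.LocG
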