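import Pool.Agent.TH120.Sec.Loc
import Pool.Agent.TH377.LocG.Abs

/-!
# The roots of a product of polynomials, with their classes
-/

set_option autoImplicit false

namespace Pool.Agent.TH377.LocG

open Pool.Agent.W620.SC Pool.Agent.W623.SecC Pool.Agent.TH120.Sec Polynomial IntermediateField

universe u v w x

theorem rootDataG {A k : Type u} {kb : Type w} [CommRing A] [IsDomain A]
    [IsDiscreteValuationRing A] [Field k] [Field kb] [Algebra A k] [Algebra k kb] [Algebra A kb]
    [IsScalarTower A k kb] [IsFractionRing A k] [CharZero k] [IsAlgClosed kb]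
    (κb : Type x) [Field κb] [Algebra (IsLocalRing.ResidueField A) κb]
    [IsAlgClosure (IsLocalRing.ResidueField A) κb]
    (V : ValuationSubring kb) (r : integralClosure A kb →+* κb)
    (hra : ∀ a : A, r (algebraMap A (integralClosure A kb) a) =
        algebraMap (IsLocalRing.ResidueField A) κb (IsLocalRing.residue A a))
    (hlift : ∀ σ : κb ≃ₐ[IsLocalRing.ResidueField A] κb, ∃ φ : kb ≃ₐ[k] kb,
        (∀ x, φ x ∈ V ↔ x ∈ V) ∧
        ∀ x y : integralClosure A kb, (y : kb) = φ x → r y = σ (r x))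
    (S : IntermediateField k kb) (hS : ∀ (φ : kb ≃ₐ[k] kb) (x : kb), φ x ∈ S ↔ x ∈ S) (ℓ : ℕ)
    {I : Type} [Fintype I] (f : I → A[X]) (e : I → ℕ)
    (hlc : ∀ i, IsUnit (f i).leadingCoeff)
    (hs : ((∏ i, f i).map (IsLocalRing.residue A)).Separable)
    (hdiv : ∀ g : (IsLocalRing.ResidueField A)[X], Irreducible g →
      g ∣ (∏ i, f i).map (IsLocalRing.residue A) → ℓ ∣ g.natDegree) :
    ∃ (X : Type w) (_ : Fintype X) (θ : X → kb) (e' : X → ℕ)
      (cl : X → (IsLocalRing.ResidueField A)[X]),
      Function.Injective θ ∧ (∀ i, aeval (θ i) (∏ i, f i) = 0) ∧ (∀ x, ∃ i, e' x = e i) ∧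
      (∀ x x', cl x = cl x' → ∃ φ π, GoodAut θ e' cl S V φ π ∧ π x = x') ∧
      (∀ x, ℓ ∣ Nat.card {x' // cl x' = cl x}) ∧
      ∀ {B : Type w} [Field B] (g : kb →+* B) (z : B),
        (∏ i, f i ^ e i).eval₂ (g.comp (algebraMap A kb)) z =
          g (algebraMap A kb (∏ i, (f i).leadingCoeff ^ e i)) *
            ∏ x : X, (z - g (θ x)) ^ (e' x) := by
  classical
  have hnorm : Normal (IsLocalRing.ResidueField A) κb := IsAlgClosure.normal _ _
  have hκcl : IsAlgClosed κb := IsAlgClosure.isAlgClosed (IsLocalRing.ResidueField A)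
  have hlc0 : ∀ i, algebraMap A kb (f i).leadingCoeff ≠ 0 := fun i =>
    ((hlc i).map (algebraMap A kb)).ne_zero
  have hf0 : ∀ i, (f i).map (algebraMap A kb) ≠ 0 := by
    intro i h
    apply hlc0 i
    rw [← leadingCoeff_map_of_leadingCoeff_ne_zero _ (hlc0 i), h, leadingCoeff_zero]
  have hmem : ∀ i θ, θ ∈ ((f i).map (algebraMap A kb)).roots.toFinset ↔ aeval θ (f i) = 0 := by
    intro i θ
    rw [Multiset.mem_toFinset, mem_roots (hf0 i), IsRoot.def, eval_map]
    rfl
  have hint : ∀ i (θ : kb), aeval θ (f i) = 0 → IsIntegral A θ := by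
    intro i θ hθ
    obtain ⟨u, hu⟩ := hlc i
    have hmon : (C ((u⁻¹ : Aˣ) : A) * f i).Monic := by
      rw [Monic, leadingCoeff_mul, leadingCoeff_C, ← hu, Units.inv_mul]
    refine ⟨_, hmon, ?_⟩
    rw [eval₂_mul]
    change _ * aeval θ (f i) = 0
    rw [hθ, mul_zero]
  -- the lifts of the roots with multiplicity, as a multiset
  have hroots : ∀ i, ∃ R : Multiset (integralClosure A kb),
      R.map (fun x : integralClosure A kb => (x : kb)) = ((f i).map (algebraMap A kb)).roots := by
    intro i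
    refine ⟨((f i).map (algebraMap A kb)).roots.attach.map fun θ => ⟨θ.1, hint i θ.1 ?_⟩, ?_⟩
    · exact (hmem i θ.1).1 (Multiset.mem_toFinset.2 θ.2)
    · rw [Multiset.map_map]
      exact Multiset.attach_map_val _
  choose R hR using hroots
  -- the factorisation over the integral closure
  have hfac : ∀ i, (f i).map (algebraMap A (integralClosure A kb)) =
      C (algebraMap A (integralClosure A kb) (f i).leadingCoeff) *
        ((R i).map fun x => X - C x).prod := by
    intro i
    have hinj : Function.Injective (algebraMap (integralClosure A kb) kb) :=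
      Subtype.val_injective
    apply map_injective _ hinj
    rw [Polynomial.map_map, ← IsScalarTower.algebraMap_eq, Polynomial.map_mul, map_C,
      Polynomial.map_multiset_prod, Multiset.map_map, ← IsScalarTower.algebraMap_apply]
    have h2 := (IsAlgClosed.splits ((f i).map (algebraMap A kb))).eq_prod_roots
    rw [leadingCoeff_map_of_leadingCoeff_ne_zero _ (hlc0 i)] at h2
    conv_lhs => rw [h2]
    rw [← hR, Multiset.map_map]
    congr 2
    refine Multiset.map_congr rfl fun a _ => ?_
    simp only [Function.comp_apply, Polynomial.map_sub, map_X, map_C]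
    rfl
  have hrc : r.comp (algebraMap A (integralClosure A kb)) =
      (algebraMap (IsLocalRing.ResidueField A) κb).comp (IsLocalRing.residue A) :=
    RingHom.ext hra
  have hfacκ : ∀ i, ((f i).map (IsLocalRing.residue A)).map
      (algebraMap (IsLocalRing.ResidueField A) κb) =
      C (r (algebraMap A (integralClosure A kb) (f i).leadingCoeff)) *
        (((R i).map r).map fun x => X - C x).prod := by
    intro i
    rw [Polynomial.map_map, ← hrc, ← Polynomial.map_map, hfac, Polynomial.map_mul, map_C,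
      Polynomial.map_multiset_prod, Multiset.map_map, Multiset.map_map]
    congr 2
    refine Multiset.map_congr rfl fun a _ => ?_
    simp only [Function.comp_apply, Polynomial.map_sub, map_X, map_C]
  have hrlc0 : ∀ i, r (algebraMap A (integralClosure A kb) (f i).leadingCoeff) ≠ 0 := by
    intro i
    rw [hra]
    exact (_root_.map_ne_zero _).2 ((hlc i).map _).ne_zero
  have hκroots : ∀ i, (((f i).map (IsLocalRing.residue A)).map
      (algebraMap (IsLocalRing.ResidueField A) κb)).roots = (R i).map r := by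
    intro i
    rw [hfacκ, roots_C_mul _ (hrlc0 i), roots_multiset_prod_X_sub_C]
  set P : (IsLocalRing.ResidueField A)[X] := (∏ i, f i).map (IsLocalRing.residue A) with hP
  have hPprod : P.map (algebraMap (IsLocalRing.ResidueField A) κb) =
      ∏ i, ((f i).map (IsLocalRing.residue A)).map
        (algebraMap (IsLocalRing.ResidueField A) κb) := by
    rw [hP, Polynomial.map_prod, Polynomial.map_prod]
  have hfκ0 : ∀ i, ((f i).map (IsLocalRing.residue A)).map
      (algebraMap (IsLocalRing.ResidueField A) κb) ≠ 0 := by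
    intro i
    rw [hfacκ]
    refine mul_ne_zero (C_ne_zero.2 (hrlc0 i)) ?_
    exact (monic_multiset_prod_of_monic _ _ fun a _ => monic_X_sub_C a).ne_zero
  have hPsep : (P.map (algebraMap (IsLocalRing.ResidueField A) κb)).Separable := hs.map
  have hPnd : (P.map (algebraMap (IsLocalRing.ResidueField A) κb)).roots.Nodup :=
    nodup_roots hPsep
  have hPr : (P.map (algebraMap (IsLocalRing.ResidueField A) κb)).roots =
      Finset.univ.val.bind fun i => (R i).map r := by
    rw [hPprod, roots_prod _ _ (Finset.prod_ne_zero_iff.2 fun i _ => hfκ0 i)]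
    congr 1
    funext i
    exact hκroots i
  rw [hPr, Multiset.nodup_bind] at hPnd
  obtain ⟨hnd1, hnd2⟩ := hPnd
  have hndR : ∀ i, ((R i).map r).Nodup := fun i => hnd1 i (Finset.mem_univ i)
  have hndi : ∀ i, ((f i).map (algebraMap A kb)).roots.Nodup := by
    intro i
    rw [← hR]
    exact (Multiset.Nodup.of_map _ (hndR i)).map Subtype.val_injective
  have hRmem : ∀ i (x : integralClosure A kb), x ∈ R i ↔ aeval (x : kb) (f i) = 0 := by
    intro i x
    rw [← hmem i, Multiset.mem_toFinset, ← hR, Multiset.mem_map]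
    constructor
    · exact fun h => ⟨x, h, rfl⟩
    · rintro ⟨y, hy, hyx⟩
      rwa [← Subtype.ext hyx]
  have hdisj : ∀ i i' : I, i ≠ i' → ∀ ρ, ρ ∈ (R i).map r → ρ ∉ (R i').map r := by
    intro i i' hii θ h1 h2
    obtain ⟨l, hl, hl'⟩ := hnd2
    have h3 : i ∈ l := by
      rw [← Multiset.mem_coe, ← hl]
      exact Finset.mem_univ i
    have h4 : i' ∈ l := by
      rw [← Multiset.mem_coe, ← hl]
      exact Finset.mem_univ i'
    have hsy : Std.Symm (Function.onFun Disjoint
        fun i => (R i).map r) := ⟨fun a b h => Disjoint.symm h⟩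
    have h5 := hl'.forall h3 h4 hii
    exact Multiset.disjoint_left.1 h5 h1 h2
  have hφroot : ∀ (φ : kb ≃ₐ[k] kb) i θ, θ ∈ ((f i).map (algebraMap A kb)).roots.toFinset ↔
      φ θ ∈ ((f i).map (algebraMap A kb)).roots.toFinset := by
    intro φ i θ
    rw [hmem, hmem]
    have h1 : aeval (φ θ) (f i) = φ (aeval θ (f i)) := by
      rw [aeval_def, aeval_def]
      change _ = (φ : kb →+* kb) _
      rw [hom_eval₂]
      congr 1
      ext b
      rw [RingHom.comp_apply, IsScalarTower.algebraMap_apply A k kb]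
      exact (φ.commutes (algebraMap A k b)).symm
    rw [h1, map_eq_zero_iff _ φ.injective]
  have hroot : ∀ (i : I) (θ : kb), aeval θ (f i) = 0 → aeval θ (∏ i, f i) = 0 := by
    intro i θ h
    rw [map_prod]
    exact Finset.prod_eq_zero (Finset.mem_univ i) h
  let X := Σ i : I, {θ : kb // θ ∈ ((f i).map (algebraMap A kb)).roots.toFinset}
  let Θ : X → integralClosure A kb := fun x => ⟨x.2.1, hint x.1 _ ((hmem _ _).1 x.2.2)⟩
  have hΘR : ∀ x : X, Θ x ∈ R x.1 := fun x => (hRmem _ _).2 ((hmem _ _).1 x.2.2)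
  let ρ : X → κb := fun x => r (Θ x)
  have hρinj : Function.Injective ρ := by
    rintro ⟨i, θ, hθ⟩ ⟨i', θ', hθ'⟩ h
    by_cases hii : i = i'
    · subst hii
      have h1 : Θ ⟨i, θ, hθ⟩ = Θ ⟨i, θ', hθ'⟩ :=
        Multiset.inj_on_of_nodup_map (hndR i) _ (hΘR ⟨i, θ, hθ⟩) _ (hΘR ⟨i, θ', hθ'⟩) h
      have h2 : θ = θ' := congrArg Subtype.val h1
      subst h2
      rfl
    · exfalso
      refine hdisj i i' hii _ (Multiset.mem_map_of_mem r (hΘR ⟨i, θ, hθ⟩)) ?_
      have h1 : r (Θ ⟨i, θ, hθ⟩) = r (Θ ⟨i', θ', hθ'⟩) := h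
      rw [h1]
      exact Multiset.mem_map_of_mem r (hΘR ⟨i', θ', hθ'⟩)
  have hP0 : P.map (algebraMap (IsLocalRing.ResidueField A) κb) ≠ 0 := hPsep.ne_zero
  have hρP : ∀ τ : κb, aeval τ P = 0 ↔ ∃ x, ρ x = τ := by
    intro τ
    have h1 : aeval τ P = 0 ↔
        τ ∈ (P.map (algebraMap (IsLocalRing.ResidueField A) κb)).roots := by
      rw [mem_roots hP0, IsRoot.def, eval_map]
      rfl
    rw [h1, hPr, Multiset.mem_bind]
    constructor
    · rintro ⟨i, -, h2⟩
      obtain ⟨y, hy, hyτ⟩ := Multiset.mem_map.1 h2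
      exact ⟨⟨i, (y : kb), (hmem _ _).2 ((hRmem _ _).1 hy)⟩, hyτ⟩
    · rintro ⟨x, rfl⟩
      exact ⟨x.1, Finset.mem_univ x.1, Multiset.mem_map_of_mem r (hΘR x)⟩
  let cl : X → (IsLocalRing.ResidueField A)[X] := fun x => minpoly (IsLocalRing.ResidueField A) (ρ x)
  have hρint : ∀ τ : κb, IsIntegral (IsLocalRing.ResidueField A) τ := fun τ =>
    Algebra.IsIntegral.isIntegral τ
  refine ⟨X, inferInstance, fun x => x.2.1, fun x => e x.1, cl, ?_, ?_,
    fun x => ⟨x.1, rfl⟩, ?_, ?_, ?_⟩
  · intro x x' h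
    have h1 : Θ x = Θ x' := Subtype.ext h
    exact hρinj (congrArg r h1)
  · intro x
    exact hroot x.1 _ ((hmem _ _).1 x.2.2)
  · intro x x' hxx
    have h1 : IsConjRoot (IsLocalRing.ResidueField A) (ρ x) (ρ x') := hxx
    rw [isConjRoot_iff_exists_algEquiv] at h1
    obtain ⟨σ, hσ⟩ := h1
    obtain ⟨φ, hφV, hφr⟩ := hlift σ⁻¹
    let π : Equiv.Perm X := Equiv.sigmaCongrRight fun i => φ.toEquiv.subtypeEquiv (hφroot φ i)
    have hπ : ∀ x : X, φ (x.2 : kb) = ((π x).2 : kb) := fun x => rfl
    have hρπ : ∀ y : X, ρ (π y) = σ⁻¹ (ρ y) := fun y => hφr (Θ y) (Θ (π y)) rfl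
    refine ⟨φ, π, ⟨hφV, hS φ, hπ, fun _ => rfl, ?_⟩, ?_⟩
    · intro y
      change minpoly _ (ρ (π y)) = minpoly _ (ρ y)
      rw [hρπ, minpoly.algEquiv_eq]
    · apply hρinj
      rw [hρπ, ← hσ]
      exact σ.symm_apply_apply _
  · intro x
    set g := minpoly (IsLocalRing.ResidueField A) (ρ x) with hg
    have hgirr : Irreducible g := minpoly.irreducible (hρint _)
    have hgP : g ∣ P := minpoly.dvd _ _ ((hρP _).2 ⟨x, rfl⟩)
    have hgsep : g.Separable := hs.of_dvd hgP
    have h1 := hdiv g hgirr hgP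
    have h2 : Fintype.card (g.rootSet κb) = g.natDegree :=
      card_rootSet_eq_natDegree hgsep (IsAlgClosed.splits _)
    rw [← h2, ← Nat.card_eq_fintype_card] at h1
    have h3 : Nat.card {x' // cl x' = cl x} = Nat.card (g.rootSet κb) := by
      refine Nat.card_congr (Equiv.ofBijective (fun y => ⟨ρ y.1, ?_⟩) ⟨?_, ?_⟩)
      · rw [mem_rootSet]
        refine ⟨hgirr.ne_zero, ?_⟩
        have h4 : g = minpoly (IsLocalRing.ResidueField A) (ρ y.1) := y.2.symm
        rw [h4]
        exact minpoly.aeval _ _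
      · intro y y' h
        exact Subtype.ext (hρinj (congrArg Subtype.val h))
      · rintro ⟨τ, hτ⟩
        rw [mem_rootSet] at hτ
        have h4 : aeval τ P = 0 := by
          obtain ⟨q, hq⟩ := hgP
          rw [hq, map_mul, hτ.2, zero_mul]
        obtain ⟨y, hy⟩ := (hρP τ).1 h4
        refine ⟨⟨y, ?_⟩, Subtype.ext hy⟩
        change minpoly _ (ρ y) = g
        rw [hy]
        exact (minpoly.eq_of_irreducible_of_monic hgirr hτ.2 (minpoly.monic (hρint _))).symm
    rw [h3]
    exact h1
  · intro B _ g z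
    rw [eval₂_finsetProd]
    have h1 : ∀ i, (f i ^ e i).eval₂ (g.comp (algebraMap A kb)) z =
        g (algebraMap A kb ((f i).leadingCoeff ^ e i)) *
          ∏ x : {θ : kb // θ ∈ ((f i).map (algebraMap A kb)).roots.toFinset},
            (z - g x.1) ^ e i := by
      intro i
      have h2 := (IsAlgClosed.splits ((f i).map (algebraMap A kb))).eq_prod_roots
      rw [leadingCoeff_map_of_leadingCoeff_ne_zero _ (hlc0 i)] at h2
      have h3 : ∏ x : {θ : kb // θ ∈ ((f i).map (algebraMap A kb)).roots.toFinset},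
          (z - g x.1) ^ e i =
          (((f i).map (algebraMap A kb)).roots.map (fun θ => z - g θ)).prod ^ e i := by
        rw [Finset.prod_pow]
        congr 1
        have h4 := Finset.prod_coe_sort ((f i).map (algebraMap A kb)).roots.toFinset
          (fun θ => z - g θ)
        refine h4.trans ?_
        rw [Finset.prod, Multiset.toFinset_val, Multiset.dedup_eq_self.2 (hndi i)]
      rw [h3, eval₂_pow, ← eval₂_map]
      conv_lhs => rw [h2]
      rw [eval₂_mul, eval₂_C, ← coe_eval₂RingHom, map_multiset_prod,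
        Multiset.map_map, mul_pow, ← map_pow, ← map_pow]
      congr 3
      refine Multiset.map_congr rfl fun a _ => ?_
      simp
    rw [Finset.prod_congr rfl fun i _ => h1 i, Finset.prod_mul_distrib, ← map_prod, ← map_prod]
    congr 1
    exact (Fintype.prod_sigma (fun x : X => (z - g x.2.1) ^ (e x.1))).symm

end Pool.Agent.TH377.LocG
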