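import Pool.Agent.TH120.Sec.Loc2
import Pool.Agent.TH377.Loc.Tame
import Pool.Agent.TH377.LocG.Gal
import Pool.Agent.TH377.LocG.Lift
import Pool.Agent.TH377.LocG.Roots

/-!
# The local theorem: irreducible factors of degree divisible by `ℓ`
-/

set_option autoImplicit false

namespace Pool.Agent.TH377.LocG

open Pool.Agent.W620.SC Pool.Agent.W623.SecC Pool.Agent.TH120.Sec Polynomial IntermediateField
open Pool.Agent.TH377.Loc

universe u v w x

/-- all irreducible factors of `P` have degrees divisible by `ℓ` -/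
def FactorDiv {κ : Type*} [Field κ] (ℓ : ℕ) (P : κ[X]) : Prop :=
  ∀ g : κ[X], Irreducible g → g ∣ P → ℓ ∣ g.natDegree

/-- all the data needed for the Kummer argument -/
theorem all_data {A k : Type u} {kb : Type w} [CommRing A] [IsDomain A]
    [IsDiscreteValuationRing A]
    [Field k] [Field kb] [Algebra A k] [Algebra k kb] [Algebra A kb] [IsScalarTower A k kb]
    [IsFractionRing A k] [CharZero k] [IsAlgClosed kb] [Algebra.IsAlgebraic k kb]
    (ℓ : ℕ)
    {I : Type} [Fintype I] (f : I → A[X]) (e : I → ℕ)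
    (hlc : ∀ i, IsUnit (f i).leadingCoeff)
    (hs : ((∏ i, f i).map (IsLocalRing.residue A)).Separable)
    (hσ : FactorDiv (Nat.gcd 2 ℓ * ℓ) ((∏ i, f i).map (IsLocalRing.residue A)))
    (ϖ : A) (hϖ : Irreducible ϖ) (a : k) (t : A) (ht : IsUnit t) (m : ℤ)
    (ha : a = algebraMap A k t * algebraMap A k ϖ ^ m) :
    ∃ (V : ValuationSubring kb) (X : Type w) (_ : Fintype X) (θ : X → kb)
      (e' : X → ℕ) (cl : X → (IsLocalRing.ResidueField A)[X]),
      algebraMap A k ϖ ≠ 0 ∧ algebraMap k kb (algebraMap A k ϖ) ∈ V.nonunits ∧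
      (∀ c ∈ IntermediateField.adjoin k {θ : kb | aeval θ (∏ i, f i) = 0}, c ≠ 0 →
        ∃ j : ℤ, IsU V (c / algebraMap k kb (algebraMap A k ϖ) ^ j)) ∧
      Function.Injective θ ∧ (∀ i, aeval (θ i) (∏ i, f i) = 0) ∧ (∀ x, ∃ i, e' x = e i) ∧
      (∀ x x', cl x = cl x' → ∃ φ π, GoodAut θ e' cl
        (IntermediateField.adjoin k {θ : kb | aeval θ (∏ i, f i) = 0}) V φ π ∧ π x = x') ∧
      (∀ x, Nat.gcd 2 ℓ * ℓ ∣ Nat.card {x' // cl x' = cl x}) ∧
      IsU V (algebraMap k kb (a / algebraMap A k (∏ i, (f i).leadingCoeff ^ e i)) /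
        algebraMap k kb (algebraMap A k ϖ) ^ m) ∧
      algebraMap A k (∏ i, (f i).leadingCoeff ^ e i) ≠ 0 ∧
      ∀ {B : Type w} [Field B] (g : kb →+* B) (z : B),
        (∏ i, f i ^ e i).eval₂ (g.comp (algebraMap A kb)) z =
          g (algebraMap A kb (∏ i, (f i).leadingCoeff ^ e i)) *
            ∏ x : X, (z - g (θ x)) ^ (e' x) := by
  classical
  have hacl : IsAlgClosure k kb := ⟨inferInstance, inferInstance⟩
  have hlcP : IsUnit (∏ i, f i).leadingCoeff := by
    rw [leadingCoeff_prod, IsUnit.prod_univ_iff]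
    exact hlc
  obtain ⟨V, r, hVa, hVm, hra, hlift⟩ := exists_lift_residue A k kb
    (AlgebraicClosure (IsLocalRing.ResidueField A))
  obtain ⟨X, hX, θ, e', cl, hθinj, hθroot, he', htr, hcard, hprod⟩ :=
    rootDataG (AlgebraicClosure (IsLocalRing.ResidueField A)) V r hra hlift
      (IntermediateField.adjoin k {θ : kb | aeval θ (∏ i, f i) = 0})
      (fun φ x => adjoin_roots_stable (∏ i, f i) φ x) _ f e hlc hs hσ
  have hϖk0 : algebraMap A k ϖ ≠ 0 := by
    rw [Ne, map_eq_zero_iff _ (IsFractionRing.injective A k)]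
    exact hϖ.ne_zero
  have hpn : algebraMap k kb (algebraMap A k ϖ) ∈ V.nonunits := by
    rw [← IsScalarTower.algebraMap_apply]
    refine hVm _ ?_
    rw [hϖ.maximalIdeal_eq]
    exact Ideal.mem_span_singleton_self ϖ
  set u : A := ∏ i, (f i).leadingCoeff ^ e i with hu
  have huu : IsUnit u := by
    rw [hu, IsUnit.prod_univ_iff]
    exact fun i => (hlc i).pow _
  have hu0 : algebraMap A k u ≠ 0 := by
    rw [Ne, map_eq_zero_iff _ (IsFractionRing.injective A k)]
    exact huu.ne_zero
  refine ⟨V, X, hX, θ, e', cl, hϖk0, hpn, ?_, hθinj, hθroot, he', htr, hcard, ?_, hu0,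
    hprod⟩
  · intro c hc hc0
    rw [← IsScalarTower.algebraMap_apply]
    exact tame A k kb V hVa hVm ϖ hϖ (∏ i, f i) hlcP hs c hc hc0
  · have hp0 : algebraMap k kb (algebraMap A k ϖ) ^ m ≠ 0 :=
      zpow_ne_zero _ ((_root_.map_ne_zero _).2 hϖk0)
    have h1 : algebraMap k kb (a / algebraMap A k u) /
        algebraMap k kb (algebraMap A k ϖ) ^ m =
        algebraMap A kb t / algebraMap A kb u := by
      have e1 : algebraMap k kb (algebraMap A k t) = algebraMap A kb t :=
        (IsScalarTower.algebraMap_apply _ _ _ _).symm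
      have e2 : algebraMap k kb (algebraMap A k u) = algebraMap A kb u :=
        (IsScalarTower.algebraMap_apply _ _ _ _).symm
      rw [ha, map_div₀, map_mul, map_zpow₀, e1, e2, mul_div_right_comm,
        mul_div_cancel_right₀ _ hp0]
    rw [h1]
    exact (unit_isU V hVa ht).div (unit_isU V hVa huu)

section

variable {A k : Type u} [CommRing A] [IsDomain A]
    [IsDiscreteValuationRing A] [Field k] [Algebra A k]
    [IsFractionRing A k] [CharZero k]
    (ℓ : ℕ) (hℓ : 0 < ℓ)
    {I : Type} [Fintype I] (f : I → A[X]) (e : I → ℕ)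
    (hlc : ∀ i, IsUnit (f i).leadingCoeff)
    (hs : ((∏ i, f i).map (IsLocalRing.residue A)).Separable)
    (hσ : FactorDiv (Nat.gcd 2 ℓ * ℓ) ((∏ i, f i).map (IsLocalRing.residue A)))
    (ϖ : A) (hϖ : Irreducible ϖ) (a : k) (t : A) (ht : IsUnit t) (m : ℤ) (hm : ¬ (ℓ : ℤ) ∣ m)
    (ha : a = algebraMap A k t * algebraMap A k ϖ ^ m)

include hℓ hlc hs hσ hϖ ht hm ha

/-- **The local theorem**, sections over `F_U`. -/
theorem local_U {F : Type v} {Ω : Type w} [Field F] [Field Ω] [Algebra k F] [Algebra F Ω]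
    [Algebra k Ω] [IsScalarTower k F Ω] [IsAlgClosed Ω] [Algebra.IsAlgebraic F Ω]
    (he : ∀ i, Nat.Coprime ℓ (e i))
    (U : Set (ValuationSubring F)) (hU : ∀ O ∈ U, ∀ c : k, algebraMap k F c ∈ O)
    (x y : F) (hxy : algebraMap k F a * y ^ ℓ =
      aeval x ((∏ i, f i ^ e i).map (algebraMap A k))) :
    IsEmpty (GSection k F Ω U) := by
  classical
  refine ⟨fun G => ?_⟩
  have hac : IsAlgClosure k (algebraicClosure k Ω) := inferInstance
  have hkb : IsAlgClosed (algebraicClosure k Ω) := hac.1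
  let _ : Algebra A (algebraicClosure k Ω) :=
    ((algebraMap k (algebraicClosure k Ω)).comp (algebraMap A k)).toAlgebra
  have hst : IsScalarTower A k (algebraicClosure k Ω) :=
    IsScalarTower.of_algebraMap_eq (fun _ => rfl)
  obtain ⟨V, X, _, θ, e', cl, hϖ0, hpn, htame, hθinj, hθroot, he', htr, hcard,
    hcu, hu0, hprod⟩ := all_data (kb := algebraicClosure k Ω) ℓ f e hlc hs hσ ϖ hϖ a t ht m ha
  set u : A := ∏ i, (f i).leadingCoeff ^ e i with hu
  set S := IntermediateField.adjoin k {θ : algebraicClosure k Ω | aeval θ (∏ i, f i) = 0} with hS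
  set c : algebraicClosure k Ω := algebraMap k (algebraicClosure k Ω)
    (a / algebraMap A k u) with hc
  refine gal U hU G V S (algebraMap A k ϖ) hϖ0 hpn htame ℓ hℓ θ
    (fun i => IntermediateField.subset_adjoin k _ (hθroot i)) hθinj e' (fun i => by
      obtain ⟨j, hj⟩ := he' i
      rw [hj]
      exact he j) cl htr hcard x y c (S.algebraMap_mem _) m hm hcu ?_
  have h1 := congrArg (algebraMap F Ω) hxy
  rw [map_mul, map_pow, ← IsScalarTower.algebraMap_apply] at h1
  have h3 : algebraMap F Ω (aeval x ((∏ i, f i ^ e i).map (algebraMap A k))) =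
      (∏ i, f i ^ e i).eval₂ ((algebraMap (algebraicClosure k Ω) Ω).comp
        (algebraMap A (algebraicClosure k Ω))) (algebraMap F Ω x) := by
    rw [aeval_def, hom_eval₂, eval₂_map, ← IsScalarTower.algebraMap_eq k F Ω,
      IsScalarTower.algebraMap_eq A k (algebraicClosure k Ω), ← RingHom.comp_assoc,
      ← IsScalarTower.algebraMap_eq k (algebraicClosure k Ω) Ω]
  rw [h3, hprod (algebraMap (algebraicClosure k Ω) Ω) (algebraMap F Ω x)] at h1
  have h5 : algebraMap (algebraicClosure k Ω) Ω (algebraMap A (algebraicClosure k Ω) u) ≠ 0 :=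
    (_root_.map_ne_zero _).2 ((_root_.map_ne_zero (algebraMap k (algebraicClosure k Ω))).2 hu0)
  have h6 : (c : Ω) = algebraMap k Ω a / algebraMap (algebraicClosure k Ω) Ω
      (algebraMap A (algebraicClosure k Ω) u) := by
    change algebraMap (algebraicClosure k Ω) Ω c = _
    rw [hc, map_div₀, map_div₀, ← IsScalarTower.algebraMap_apply]
    rfl
  rw [h6, div_mul_eq_mul_div, h1, mul_div_cancel_left₀ _ h5]
  rfl

/-- **The local theorem**, sections over any extension containing the roots of the ratios. -/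
theorem local_M {F : Type v} {Ω : Type w} [Field F] [Field Ω] [Algebra k F] [Algebra F Ω]
    [Algebra k Ω] [IsScalarTower k F Ω] [IsAlgClosed Ω] [Algebra.IsAlgebraic F Ω]
    (M : IntermediateField F Ω) (hM : ∀ c : algebraicClosure k Ω, (c : Ω) ∈ M)
    (x y : F) (hxy : algebraMap k F a * y ^ ℓ =
      aeval x ((∏ i, f i ^ e i).map (algebraMap A k)))
    (hroot : ∀ θ θ' : Ω, aeval θ ((∏ i, f i).map (algebraMap A k)) = 0 →
      aeval θ' ((∏ i, f i).map (algebraMap A k)) = 0 →
      ∃ z ∈ M, z ^ ℓ = (algebraMap F Ω x - θ) / (algebraMap F Ω x - θ')) :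
    IsEmpty (MSection k F Ω M) := by
  classical
  refine ⟨fun G => ?_⟩
  have hac : IsAlgClosure k (algebraicClosure k Ω) := inferInstance
  have hkb : IsAlgClosed (algebraicClosure k Ω) := hac.1
  let _ : Algebra A (algebraicClosure k Ω) :=
    ((algebraMap k (algebraicClosure k Ω)).comp (algebraMap A k)).toAlgebra
  have hst : IsScalarTower A k (algebraicClosure k Ω) :=
    IsScalarTower.of_algebraMap_eq (fun _ => rfl)
  obtain ⟨V, X, _, θ, e', cl, hϖ0, hpn, htame, hθinj, hθroot, he', htr, hcard,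
    hcu, hu0, hprod⟩ := all_data (kb := algebraicClosure k Ω) ℓ f e hlc hs hσ ϖ hϖ a t ht m ha
  set u : A := ∏ i, (f i).leadingCoeff ^ e i with hu
  set S := IntermediateField.adjoin k {θ : algebraicClosure k Ω | aeval θ (∏ i, f i) = 0} with hS
  set c : algebraicClosure k Ω := algebraMap k (algebraicClosure k Ω)
    (a / algebraMap A k u) with hc
  have hθΩ : ∀ i, aeval (θ i : Ω) ((∏ i, f i).map (algebraMap A k)) = 0 := by
    intro i
    have h1 := congrArg (algebraMap (algebraicClosure k Ω) Ω) (hθroot i)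
    rw [map_zero, aeval_def, hom_eval₂] at h1
    rw [aeval_def, eval₂_map]
    have h2 : (algebraMap k Ω).comp (algebraMap A k) =
        (algebraMap (algebraicClosure k Ω) Ω).comp (algebraMap A (algebraicClosure k Ω)) := by
      rw [IsScalarTower.algebraMap_eq A k (algebraicClosure k Ω), ← RingHom.comp_assoc,
        ← IsScalarTower.algebraMap_eq k (algebraicClosure k Ω) Ω]
    rw [h2]
    exact h1
  refine galM M hM G V S (algebraMap A k ϖ) hϖ0 hpn htame ℓ hℓ θ
    (fun i => IntermediateField.subset_adjoin k _ (hθroot i)) hθinj e' cl htr hcard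
    x y c (S.algebraMap_mem _) m hm hcu ?_ (fun i i' => hroot _ _ (hθΩ i) (hθΩ i'))
  have h1 := congrArg (algebraMap F Ω) hxy
  rw [map_mul, map_pow, ← IsScalarTower.algebraMap_apply] at h1
  have h3 : algebraMap F Ω (aeval x ((∏ i, f i ^ e i).map (algebraMap A k))) =
      (∏ i, f i ^ e i).eval₂ ((algebraMap (algebraicClosure k Ω) Ω).comp
        (algebraMap A (algebraicClosure k Ω))) (algebraMap F Ω x) := by
    rw [aeval_def, hom_eval₂, eval₂_map, ← IsScalarTower.algebraMap_eq k F Ω,
      IsScalarTower.algebraMap_eq A k (algebraicClosure k Ω), ← RingHom.comp_assoc,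
      ← IsScalarTower.algebraMap_eq k (algebraicClosure k Ω) Ω]
  rw [h3, hprod (algebraMap (algebraicClosure k Ω) Ω) (algebraMap F Ω x)] at h1
  have h5 : algebraMap (algebraicClosure k Ω) Ω (algebraMap A (algebraicClosure k Ω) u) ≠ 0 :=
    (_root_.map_ne_zero _).2 ((_root_.map_ne_zero (algebraMap k (algebraicClosure k Ω))).2 hu0)
  have h6 : (c : Ω) = algebraMap k Ω a / algebraMap (algebraicClosure k Ω) Ω
      (algebraMap A (algebraicClosure k Ω) u) := by
    change algebraMap (algebraicClosure k Ω) Ω c = _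
    rw [hc, map_div₀, map_div₀, ← IsScalarTower.algebraMap_apply]
    rfl
  rw [h6, div_mul_eq_mul_div, h1, mul_div_cancel_left₀ _ h5]
  rfl

/-- **The local theorem**, points. -/
theorem local_P (x y : k) : a * y ^ ℓ ≠ ((∏ i, f i ^ e i).map (algebraMap A k)).eval x := by
  classical
  intro hxy
  obtain ⟨V, X, _, θ, e', cl, hϖ0, hpn, htame, hθinj, hθroot, he', htr, hcard,
    hcu, hu0, hprod⟩ := all_data (kb := AlgebraicClosure k) ℓ f e hlc hs hσ ϖ hϖ a t ht m ha
  set u : A := ∏ i, (f i).leadingCoeff ^ e i with hu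
  set S := IntermediateField.adjoin k {θ : AlgebraicClosure k | aeval θ (∏ i, f i) = 0} with hS
  set c : AlgebraicClosure k := algebraMap k (AlgebraicClosure k)
    (a / algebraMap A k u) with hc
  refine galpt V S (algebraMap A k ϖ) hϖ0 hpn htame ℓ hℓ θ
    (fun i => IntermediateField.subset_adjoin k _ (hθroot i)) hθinj e' cl htr hcard x y c
    (S.algebraMap_mem _) m hm hcu ?_
  have h1 := congrArg (algebraMap k (AlgebraicClosure k)) hxy
  rw [map_mul, map_pow] at h1
  have h3 : algebraMap k (AlgebraicClosure k) (eval x ((∏ i, f i ^ e i).map (algebraMap A k))) =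
      (∏ i, f i ^ e i).eval₂ ((RingHom.id (AlgebraicClosure k)).comp
        (algebraMap A (AlgebraicClosure k))) (algebraMap k (AlgebraicClosure k) x) := by
    rw [← eval₂_at_apply, eval₂_map, IsScalarTower.algebraMap_eq A k (AlgebraicClosure k)]
    congr 1
  rw [h3, hprod (RingHom.id (AlgebraicClosure k)) (algebraMap k (AlgebraicClosure k) x)] at h1
  have h5 : algebraMap A (AlgebraicClosure k) u ≠ 0 := by
    rw [IsScalarTower.algebraMap_apply A k (AlgebraicClosure k)]
    exact (_root_.map_ne_zero (algebraMap k (AlgebraicClosure k))).2 hu0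
  have h6 : c = algebraMap k (AlgebraicClosure k) a / algebraMap A (AlgebraicClosure k) u := by
    rw [hc, map_div₀, ← IsScalarTower.algebraMap_apply]
  rw [h6, div_mul_eq_mul_div, h1]
  exact mul_div_cancel_left₀ _ h5

end

end Pool.Agent.TH377.LocG
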